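import Mathlib

/-!
# The Berge deficiency formula (hard direction), derived from Tutte's theorem
-/

set_option autoImplicit false
set_option linter.unusedSectionVars false
set_option linter.unusedVariables false

namespace Pool.Agent.WCL

open Finset SimpleGraph

variable {V : Type} [Fintype V] [DecidableEq V]

/-- `M` is a matching of `R`: a finite set of edges of `R` that are pairwise vertex-disjoint. -/
def IsMat (R : SimpleGraph V) (M : Finset (Sym2 V)) : Prop :=
  (∀ e ∈ M, e ∈ R.edgeSet) ∧ ∀ e ∈ M, ∀ f ∈ M, e ≠ f → ∀ v : V, ¬ (v ∈ e ∧ v ∈ f)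

/-- A matching obtained from an involution `g` on `A` along edges. -/
theorem mat_of_invol (R : SimpleGraph V) (A : Finset V) (g : V → V)
    (hgA : ∀ a ∈ A, g a ∈ A) (hgg : ∀ a ∈ A, g (g a) = a) (hR : ∀ a ∈ A, R.Adj a (g a)) :
    ∃ M, IsMat R M ∧ 2 * M.card = A.card := by
  classical
  refine ⟨A.image fun a => s(a, g a), ⟨?_, ?_⟩, ?_⟩
  · intro e he
    rw [mem_image] at he
    obtain ⟨a, ha, rfl⟩ := he
    exact hR a ha
  · intro e he f hf hef v ⟨hve, hvf⟩
    rw [mem_image] at he hf
    obtain ⟨a, ha, rfl⟩ := he
    obtain ⟨b, hb, rfl⟩ := hf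
    apply hef
    have key : ∀ x ∈ A, v ∈ s(x, g x) → s(x, g x) = s(v, g v) := by
      intro x hx hv
      rw [Sym2.mem_iff] at hv
      rcases hv with rfl | rfl
      · rfl
      · rw [hgg x hx, Sym2.eq_swap]
    rw [key a ha hve, key b hb hvf]
  · have h1 := Finset.card_eq_sum_card_image (fun a => s(a, g a)) A
    rw [h1, mul_comm, ← smul_eq_mul, ← Finset.sum_const]
    refine Finset.sum_congr rfl fun e he => ?_
    rw [mem_image] at he
    obtain ⟨a, ha, rfl⟩ := he
    have hne : a ≠ g a := (hR a ha).ne
    symm
    rw [Finset.card_eq_two]
    refine ⟨a, g a, hne, ?_⟩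
    ext x
    simp only [mem_filter, mem_insert, mem_singleton, Sym2.eq_iff]
    constructor
    · rintro ⟨_, h | h⟩
      · exact Or.inl h.1
      · exact Or.inr h.1
    · rintro (rfl | rfl)
      · exact ⟨ha, Or.inl ⟨rfl, rfl⟩⟩
      · exact ⟨hgA a ha, Or.inr ⟨rfl, hgg a ha⟩⟩

/-- `R` together with `d` new vertices joined to everything. -/
def extG (R : SimpleGraph V) (d : ℕ) : SimpleGraph (V ⊕ Fin d) where
  Adj x y := x ≠ y ∧ ∀ a b, x = Sum.inl a → y = Sum.inl b → R.Adj a b
  symm := ⟨fun x y h => ⟨h.1.symm, fun a b ha hb => (h.2 b a hb ha).symm⟩⟩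
  loopless := ⟨fun x h => h.1 rfl⟩

theorem mat_of_perfect (R : SimpleGraph V) (d : ℕ) (M' : (extG R d).Subgraph)
    (hM' : M'.IsPerfectMatching) : ∃ M, IsMat R M ∧ Fintype.card V ≤ 2 * M.card + d := by
  classical
  rw [Subgraph.isPerfectMatching_iff] at hM'
  choose f hf hf' using hM'
  have hff : ∀ x, f (f x) = x := fun x => (hf' (f x) x (hf x).symm).symm
  let A : Finset V := univ.filter fun a => ∃ b, f (Sum.inl a) = Sum.inl b
  let g : V → V := fun a => (f (Sum.inl a)).elim id (fun _ => a)
  have hg : ∀ a ∈ A, f (Sum.inl a) = Sum.inl (g a) := by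
    intro a ha
    simp only [A, mem_filter, mem_univ, true_and] at ha
    obtain ⟨b, hb⟩ := ha
    simp [g, hb]
  obtain ⟨M, hM, hc⟩ := mat_of_invol R A g
    (fun a ha => by
      simp only [A, mem_filter, mem_univ, true_and]
      refine ⟨a, ?_⟩
      rw [← hg a ha, hff])
    (fun a ha => by
      have h1 : f (Sum.inl (g a)) = Sum.inl a := by rw [← hg a ha, hff]
      simp [g] at h1 ⊢
      rw [h1]
      rfl)
    (fun a ha => by
      have h1 := M'.adj_sub (hf (Sum.inl a))
      exact h1.2 a (g a) rfl (hg a ha))
  refine ⟨M, hM, ?_⟩
  rw [hc]
  have h2 : (univ \ A).card ≤ d := by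
    have h3 : (univ \ A).card ≤ ((univ : Finset (Fin d)).map
        ⟨(Sum.inr : Fin d → V ⊕ Fin d), Sum.inr_injective⟩).card := by
      refine Finset.card_le_card_of_injOn (fun a => f (Sum.inl a)) ?_ ?_
      · intro a ha
        simp only [A, coe_sdiff, coe_univ, coe_filter, mem_univ, true_and, Set.mem_sdiff,
          Set.mem_univ, Set.mem_ofPred_eq, not_exists] at ha
        simp only [coe_map, Function.Embedding.coeFn_mk, coe_univ, Set.image_univ, Set.mem_range]
        rcases h : f (Sum.inl a) with b | i
        · exact absurd h (ha b)
        · exact ⟨i, rfl⟩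
      · intro a _ b _ hab
        have : f (f (Sum.inl a)) = f (f (Sum.inl b)) := congrArg f hab
        rw [hff, hff] at this
        exact Sum.inl_injective this
    simpa using h3
  have h4 : (univ \ A).card + A.card = Fintype.card V := by
    rw [Finset.card_sdiff_add_card_eq_card (subset_univ A), Finset.card_univ]
  omega

/-- Berge: if all matchings of `R` have at most `k` edges, there are a set `S` and a labelling of
the other vertices, constant on the edges of `R` avoiding `S`, with many odd classes. -/
theorem berge (R : SimpleGraph V) (k : ℕ) (hk : ∀ M, IsMat R M → M.card ≤ k) :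
    ∃ (S : Finset V) (ι : Type) (_ : Fintype ι) (_ : DecidableEq ι) (f : V → ι),
      (∀ a b, R.Adj a b → a ∉ S → b ∉ S → f a = f b) ∧
      Fintype.card V + S.card ≤
        2 * k + (univ.filter fun i : ι => Odd (univ.filter fun a => a ∉ S ∧ f a = i).card).card := by
  classical
  by_cases hn : Fintype.card V < 2 * k + 2
  · refine ⟨∅, Unit, inferInstance, inferInstance, fun _ => (), fun _ _ _ _ _ => rfl, ?_⟩
    by_cases h2 : Fintype.card V ≤ 2 * k
    · simp only [card_empty]; omega
    · have h3 : Fintype.card V = 2 * k + 1 := by omega
      have h4 : (univ.filter fun i : Unit => Odd (univ.filter fun a : V => a ∉ (∅ : Finset V) ∧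
          (fun _ => ()) a = i).card) = univ := by
        ext i
        simp only [mem_filter, mem_univ, true_and, notMem_empty, not_false_eq_true, iff_true]
        simp [h3]
      rw [h4]
      simp
      omega
  · push Not at hn
    set d := Fintype.card V - 2 * k - 2 with hd
    have hnp : ¬ ∃ M' : (extG R d).Subgraph, M'.IsPerfectMatching := by
      rintro ⟨M', hM'⟩
      obtain ⟨M, hM, hc⟩ := mat_of_perfect R d M' hM'
      have := hk M hM
      omega
    rw [SimpleGraph.tutte] at hnp
    push Not at hnp
    obtain ⟨u, hu⟩ := hnp
    rw [SimpleGraph.IsTutteViolator] at hu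
    set H := ((⊤ : (extG R d).Subgraph).deleteVerts u).coe with hH
    have hverts : ∀ x, x ∈ ((⊤ : (extG R d).Subgraph).deleteVerts u).verts ↔ x ∉ u := by
      intro x; simp
    have hcard : Nat.card ((⊤ : (extG R d).Subgraph).deleteVerts u).verts + u.ncard =
        Fintype.card V + d := by
      have h1 : ((⊤ : (extG R d).Subgraph).deleteVerts u).verts = uᶜ := by
        ext x; simp
      rw [h1, Nat.card_coe_set_eq, add_comm, Set.ncard_add_ncard_compl]
      simp [Nat.card_eq_fintype_card]
    have hpar := SimpleGraph.odd_ncard_oddComponents (G := H)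
    have hge : u.ncard + 2 ≤ H.oddComponents.ncard := by
      rcases Nat.even_or_odd H.oddComponents.ncard with h | h
      · have h' : ¬ Odd (Nat.card ((⊤ : (extG R d).Subgraph).deleteVerts u).verts) := by
          rw [← hpar]; exact Nat.not_odd_iff_even.2 h
        rw [Nat.not_odd_iff_even] at h'
        obtain ⟨p, hp⟩ := h
        obtain ⟨q, hq⟩ := h'
        omega
      · have h' := hpar.1 h
        obtain ⟨p, hp⟩ := h
        obtain ⟨q, hq⟩ := h'
        omega
    have hinr : ∀ i : Fin d, Sum.inr i ∈ u := by
      intro i
      by_contra hi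
      have hsub : Subsingleton H.ConnectedComponent := by
        constructor
        have : ∀ c : H.ConnectedComponent, c =
            H.connectedComponentMk ⟨Sum.inr i, (hverts _).2 hi⟩ := by
          intro c
          induction c using SimpleGraph.ConnectedComponent.ind with
          | h v =>
            rw [SimpleGraph.ConnectedComponent.eq]
            by_cases hv : v = ⟨Sum.inr i, (hverts _).2 hi⟩
            · rw [hv]
            · apply SimpleGraph.Adj.reachable
              obtain ⟨v, hv'⟩ := v
              rw [hH]
              simp only [Subgraph.coe_adj, Subgraph.deleteVerts_adj, Subgraph.top_adj]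
              refine ⟨trivial, (hverts _).1 hv', trivial, hi, ?_, ?_⟩
              · intro h
                apply hv
                exact Subtype.ext h
              · intro a b _ h
                simp at h
        intro c c'
        rw [this c, this c']
      have h1 : H.oddComponents.ncard ≤ 1 := by
        rw [Set.ncard_le_one (Set.toFinite _)]
        intro a _ b _
        exact Subsingleton.elim a b
      omega
    let S : Finset V := univ.filter fun a => (Sum.inl a : V ⊕ Fin d) ∈ u
    have hS : ∀ a, a ∈ S ↔ (Sum.inl a : V ⊕ Fin d) ∈ u := by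
      intro a; simp [S]
    have hucard : u.ncard = S.card + d := by
      have h1 : u = (Sum.inl '' (S : Set V)) ∪ Set.range (Sum.inr : Fin d → V ⊕ Fin d) := by
        ext x
        rcases x with a | i
        · simp [hS]
        · simp [hinr i]
      rw [h1, Set.ncard_union_eq _ (Set.toFinite _) (Set.toFinite _),
        Set.ncard_image_of_injective _ Sum.inl_injective, Set.ncard_coe_finset]
      · congr 1
        rw [← Set.image_univ, Set.ncard_image_of_injective _ Sum.inr_injective, Set.ncard_univ]
        simp
      · rw [Set.disjoint_left]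
        rintro _ ⟨a, _, rfl⟩ ⟨i, hi⟩
        simp at hi
    have : Fintype H.ConnectedComponent := Fintype.ofFinite _
    let f : V → Option H.ConnectedComponent := fun a =>
      if h : (Sum.inl a : V ⊕ Fin d) ∈ ((⊤ : (extG R d).Subgraph).deleteVerts u).verts then
        some (H.connectedComponentMk ⟨Sum.inl a, h⟩) else none
    have hf : ∀ a (h : (Sum.inl a : V ⊕ Fin d) ∈ ((⊤ : (extG R d).Subgraph).deleteVerts u).verts),
        f a = some (H.connectedComponentMk ⟨Sum.inl a, h⟩) := by
      intro a h
      simp only [f]
      rw [dif_pos h]
    refine ⟨S, Option H.ConnectedComponent, inferInstance, inferInstance, f, ?_, ?_⟩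
    · intro a b hab ha hb
      rw [hS] at ha hb
      rw [hf a ((hverts _).2 ha), hf b ((hverts _).2 hb)]
      congr 1
      rw [SimpleGraph.ConnectedComponent.eq]
      apply SimpleGraph.Adj.reachable
      rw [hH]
      simp only [Subgraph.coe_adj, Subgraph.deleteVerts_adj, Subgraph.top_adj]
      refine ⟨trivial, ha, trivial, hb, ?_, ?_⟩
      · intro h
        exact hab.ne (Sum.inl_injective h)
      · intro x y hx hy
        rw [← Sum.inl_injective hx, ← Sum.inl_injective hy]
        exact hab
    · have hodd : H.oddComponents.ncard ≤ (univ.filter fun i : Option H.ConnectedComponent =>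
          Odd (univ.filter fun a => a ∉ S ∧ f a = i).card).card := by
        rw [Set.ncard_eq_toFinset_card']
        refine Finset.card_le_card_of_injOn some ?_ ?_
        · intro c hc
          simp only [Set.coe_toFinset, Set.mem_ofPred_eq] at hc
          simp only [coe_filter, mem_univ, true_and, Set.mem_ofPred_eq]
          have h1 : (univ.filter fun a => a ∉ S ∧ f a = some c).card = c.supp.ncard := by
            rw [← Set.ncard_coe_finset]
            have hmem : ∀ a, a ∈ ((univ.filter fun a => a ∉ S ∧ f a = some c : Finset V) : Set V) →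
                (Sum.inl a : V ⊕ Fin d) ∈ ((⊤ : (extG R d).Subgraph).deleteVerts u).verts := by
              intro a ha
              rw [mem_coe, mem_filter] at ha
              rw [hverts, ← hS]
              exact ha.2.1
            refine Set.ncard_congr (fun a ha => ⟨Sum.inl a, hmem a ha⟩) ?_ ?_ ?_
            · intro a ha
              have ha' := ha
              rw [mem_coe, mem_filter] at ha'
              have h2 := ha'.2.2
              rw [hf a (hmem a ha)] at h2
              rw [SimpleGraph.ConnectedComponent.mem_supp_iff]
              exact Option.some_injective _ h2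
            · intro a b ha hb hab
              exact Sum.inl_injective (congrArg Subtype.val hab)
            · rintro ⟨x, hx⟩ hxc
              rcases x with a | i
              · have h3 : a ∈ ((univ.filter fun a => a ∉ S ∧ f a = some c : Finset V) : Set V) := by
                  rw [mem_coe, mem_filter]
                  refine ⟨mem_univ _, ?_, ?_⟩
                  · rw [hS]; exact (hverts _).1 hx
                  · rw [hf a hx]
                    rw [SimpleGraph.ConnectedComponent.mem_supp_iff] at hxc
                    rw [hxc]
                exact ⟨a, h3, rfl⟩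
              · exact absurd (hinr i) ((hverts _).1 hx)
          rw [h1]
          exact hc
        · intro a _ b _ hab
          exact Option.some_injective _ hab
      omega

end Pool.Agent.WCL
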