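import Pool.Agent.Lib_MP_76d27f_co.Simple

/-!
# Few words have many disjoint short cycles
-/

set_option autoImplicit false
set_option linter.unusedSectionVars false
set_option linter.unusedVariables false

namespace Pool.Agent.WCL

open Finset

variable {n M : ℕ}

/-- `m` disjoint closed chains of `j + 3` edges in the word `w` -/
def ValidC (m j : ℕ) (φ : (Fin m × Fin (j + 3) → Fin M) × (Fin m × Fin (j + 3) → Bool))
    (w : Pos M → Fin n) : Prop :=
  ∀ x : Fin m × Fin (j + 3), w (φ.1 x, φ.2 x) = w (φ.1 (x.1, x.2 + 1), !φ.2 (x.1, x.2 + 1))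

theorem cnt_validC (m j : ℕ) (φ : (Fin m × Fin (j + 3) → Fin M) × (Fin m × Fin (j + 3) → Bool))
    (hφ : Function.Injective φ.1) :
    cnt n M (ValidC m j φ) * (2 * M - 2 * (m * (j + 3))) ^ (m * (j + 3)) ≤
      2 ^ (m * (j + 3)) * (Om n M).card := by
  have h := eqs (n := n) (M := M) (κ := Fin m × Fin (j + 3)) (fun x => (φ.1 x, φ.2 x))
    (fun x => (φ.1 (x.1, x.2 + 1), !φ.2 (x.1, x.2 + 1)))
    (fun x y h => hφ (Prod.ext_iff.1 h).1)
    (fun x y h => by
      have h1 := hφ (Prod.ext_iff.1 h).1
      rw [Prod.mk.injEq] at h1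
      exact Prod.ext h1.1 (add_right_cancel h1.2))
    (fun x y h => by
      have h1 := hφ (Prod.ext_iff.1 h).1
      have h2 := (Prod.ext_iff.1 h).2
      simp only at h2
      rw [← h1] at h2
      cases hx : φ.2 x <;> simp [hx] at h2) univ
  rw [card_univ, Fintype.card_prod, Fintype.card_fin, Fintype.card_fin] at h
  refine le_trans (Nat.mul_le_mul_right _ ?_) h
  exact cnt_mono fun w _ hw x _ => hw x

theorem cnt_cycles (m j : ℕ) (hM : 2 * (m * (j + 3)) ≤ M) :
    m.factorial * cnt n M (fun w => ∃ φ : (Fin m × Fin (j + 3) → Fin M) ×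
      (Fin m × Fin (j + 3) → Bool), Function.Injective φ.1 ∧ ValidC m j φ w) ≤
      4 ^ (m * (j + 3)) * (Om n M).card := by
  classical
  set r := m * (j + 3) with hr
  let F : Finset ((Fin m × Fin (j + 3) → Fin M) × (Fin m × Fin (j + 3) → Bool)) :=
    univ.filter fun φ => Function.Injective φ.1
  have h1 : m.factorial * cnt n M (fun w => ∃ φ : (Fin m × Fin (j + 3) → Fin M) ×
      (Fin m × Fin (j + 3) → Bool), Function.Injective φ.1 ∧ ValidC m j φ w) ≤
      ∑ w ∈ Om n M, (F.filter fun φ => ValidC m j φ w).card := by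
    apply mul_cnt_le
    rintro w _ ⟨φ, hφ, hv⟩
    have h2 : (univ : Finset (Equiv.Perm (Fin m))).card ≤ (F.filter fun φ => ValidC m j φ w).card := by
      refine card_le_card_of_injOn (fun π => (fun x => φ.1 (π x.1, x.2), fun x => φ.2 (π x.1, x.2)))
        ?_ ?_
      · intro π _
        simp only [F, coe_filter, mem_filter, mem_univ, true_and, Set.mem_ofPred_eq]
        constructor
        · intro x y hxy
          have := hφ hxy
          rw [Prod.mk.injEq] at this
          exact Prod.ext (π.injective this.1) this.2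
        · intro x
          exact hv (π x.1, x.2)
      · intro π _ π' _ hππ
        ext a
        have h3 := congrFun (congrArg Prod.fst hππ) (a, 0)
        simp only at h3
        have h4 := hφ h3
        rw [Prod.mk.injEq] at h4
        rw [h4.1]
    rwa [card_univ, Fintype.card_perm, Fintype.card_fin] at h2
  have h5 : ∑ w ∈ Om n M, (F.filter fun φ => ValidC m j φ w).card =
      ∑ φ ∈ F, cnt n M (ValidC m j φ) := by
    have h4 := Finset.sum_card_bipartiteAbove_eq_sum_card_bipartiteBelow
      (s := Om n M) (t := F) (fun w φ => ValidC m j φ w)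
    simp only [bipartiteAbove, bipartiteBelow] at h4
    rw [h4]
    rfl
  rw [h5] at h1
  rcases Nat.eq_zero_or_pos r with hr0 | hr0
  · -- degenerate case
    have hm : m = 0 := by
      rcases Nat.mul_eq_zero.1 (hr ▸ hr0) with h | h
      · exact h
      · omega
    rw [hr0]
    subst hm
    simp only [Nat.factorial_zero, one_mul, pow_zero]
    exact cnt_le _
  have hMpos : 0 < M := by omega
  have h6 : (∑ φ ∈ F, cnt n M (ValidC m j φ)) * (2 * M - 2 * r) ^ r ≤
      F.card * (2 ^ r * (Om n M).card) := by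
    rw [sum_mul]
    refine (sum_le_sum fun φ hφ => cnt_validC m j φ (mem_filter.1 hφ).2).trans ?_
    rw [sum_const, smul_eq_mul]
  have h7 : F.card ≤ (2 * M) ^ r := by
    refine (card_le_card (filter_subset _ _)).trans ?_
    rw [card_univ, Fintype.card_prod, Fintype.card_fun, Fintype.card_fun, Fintype.card_prod,
      Fintype.card_fin, Fintype.card_fin, Fintype.card_fin, Fintype.card_bool, ← mul_pow,
      mul_comm M 2]
  have h8 : M ^ r ≤ (2 * M - 2 * r) ^ r := Nat.pow_le_pow_left (by omega) _
  have h9 : (∑ φ ∈ F, cnt n M (ValidC m j φ)) * M ^ r ≤ (4 ^ r * (Om n M).card) * M ^ r := by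
    calc (∑ φ ∈ F, cnt n M (ValidC m j φ)) * M ^ r
        ≤ (∑ φ ∈ F, cnt n M (ValidC m j φ)) * (2 * M - 2 * r) ^ r := Nat.mul_le_mul_left _ h8
      _ ≤ F.card * (2 ^ r * (Om n M).card) := h6
      _ ≤ (2 * M) ^ r * (2 ^ r * (Om n M).card) := Nat.mul_le_mul_right _ h7
      _ = (4 ^ r * (Om n M).card) * M ^ r := by
        rw [mul_pow, show (4 : ℕ) = 2 * 2 by norm_num, mul_pow]; ring
  have h10 : 0 < M ^ r := pow_pos hMpos _
  exact h1.trans (Nat.le_of_mul_le_mul_right h9 h10)

end Pool.Agent.WCL
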