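import Pool.Agent.Lib_MP_76d27f_co.Berge

/-!
# The deterministic part
-/

set_option autoImplicit false
set_option linter.unusedSectionVars false
set_option linter.unusedVariables false

namespace Pool.Agent.WCL

open Finset SimpleGraph

variable {V : Type} [Fintype V] [DecidableEq V]

open Classical in
/-- ordered adjacent pairs leaving `U` -/
noncomputable def bd (G : SimpleGraph V) (U : Finset V) : ℕ :=
  (univ.filter fun p : V × V => p.1 ∈ U ∧ p.2 ∉ U ∧ G.Adj p.1 p.2).card

open Classical in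
/-- ordered adjacent pairs inside `U` -/
noncomputable def inn (G : SimpleGraph V) (U : Finset V) : ℕ :=
  (univ.filter fun p : V × V => p.1 ∈ U ∧ p.2 ∈ U ∧ G.Adj p.1 p.2).card

open Classical in
/-- `G` is cubic -/
def Cubic (G : SimpleGraph V) : Prop := ∀ v, (univ.filter fun w => G.Adj v w).card = 3

open Classical in
/-- number of ordered adjacent pairs -/
noncomputable def dn (G : SimpleGraph V) : ℕ :=
  (univ.filter fun p : V × V => G.Adj p.1 p.2).card

/-- a cycle of length `j + 3` inside `U` -/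
def CycIn (G : SimpleGraph V) (U : Finset V) (j : ℕ) : Prop :=
  ∃ x : Fin (j + 3) → V, Function.Injective x ∧ (∀ b, x b ∈ U) ∧ ∀ b, G.Adj (x b) (x (b + 1))

open Classical in
theorem darts_from (G : SimpleGraph V) (hG : Cubic G) (U : Finset V) :
    (univ.filter fun p : V × V => p.1 ∈ U ∧ G.Adj p.1 p.2).card = 3 * U.card := by
  have h1 : (univ.filter fun p : V × V => p.1 ∈ U ∧ G.Adj p.1 p.2) =
      U.biUnion fun x => (univ.filter fun y => G.Adj x y).image fun y => (x, y) := by
    ext ⟨x, y⟩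
    simp only [mem_filter, mem_univ, true_and, mem_biUnion, mem_image, Prod.mk.injEq]
    constructor
    · rintro ⟨h1, h2⟩
      exact ⟨x, h1, y, h2, rfl, rfl⟩
    · rintro ⟨a, ha, b, hb, rfl, rfl⟩
      exact ⟨ha, hb⟩
  rw [h1, card_biUnion]
  · rw [mul_comm, ← smul_eq_mul, ← sum_const]
    refine sum_congr rfl fun x _ => ?_
    rw [card_image_of_injective _ (Prod.mk_right_injective x)]
    exact hG x
  · intro x _ y _ hxy
    rw [Function.onFun, Finset.disjoint_left]
    rintro ⟨a, b⟩ ha hb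
    simp only [mem_image, Prod.mk.injEq] at ha hb
    obtain ⟨_, _, h1, _⟩ := ha
    obtain ⟨_, _, h2, _⟩ := hb
    exact hxy (h1.trans h2.symm)

theorem bd_add_inn (G : SimpleGraph V) (hG : Cubic G) (U : Finset V) :
    bd G U + inn G U = 3 * U.card := by
  classical
  rw [← darts_from G hG U, bd, inn, ← card_union_of_disjoint]
  · congr 1
    ext ⟨x, y⟩
    simp only [mem_union, mem_filter, mem_univ, true_and]
    tauto
  · rw [Finset.disjoint_left]
    rintro ⟨x, y⟩ h1 h2
    simp only [mem_filter, mem_univ, true_and] at h1 h2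
    exact h1.2.1 h2.2.1

theorem inn_le_of_acyclic (G : SimpleGraph V) (U : Finset V) (hU : U.Nonempty)
    (h : ∀ j, j + 3 ≤ U.card → ¬ CycIn G U j) : inn G U + 2 ≤ 2 * U.card := by
  classical
  have hac : (G.induce (U : Set V)).IsAcyclic := by
    rw [SimpleGraph.isAcyclic_iff_free_cycleGraph]
    intro k hk hcon
    obtain ⟨j, rfl⟩ : ∃ j, k = j + 3 := ⟨k - 3, by omega⟩
    obtain ⟨φ⟩ := hcon
    have hinj := φ.injective
    have hle : j + 3 ≤ U.card := by
      have := Fintype.card_le_of_injective _ hinj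
      simpa using this
    refine h j hle ⟨fun b => (φ b : V), ?_, ?_, ?_⟩
    · intro a b hab
      exact hinj (Subtype.ext hab)
    · intro b
      exact (φ b).2
    · intro b
      have h1 : (cycleGraph (j + 3)).Adj b (b + 1) := by
        rw [cycleGraph_adj]
        right
        simp
      exact φ.toHom.map_adj h1
  have hne : Nonempty (U : Set V) := hU.to_subtype
  obtain ⟨T, hT1, _, hT3⟩ := (SimpleGraph.connected_top (V := (U : Set V))).exists_isTree_le_of_le_of_isAcyclic
    le_top hac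
  have h1 := hT3.card_edgeFinset
  have h2 : (G.induce (U : Set V)).edgeFinset.card ≤ T.edgeFinset.card :=
    card_le_card (by simpa using hT1)
  have h3 : inn G U = 2 * (G.induce (U : Set V)).edgeFinset.card := by
    rw [SimpleGraph.two_mul_card_edgeFinset, inn]
    symm
    refine card_bij (fun p _ => ((p.1 : V), (p.2 : V))) ?_ ?_ ?_
    · rintro ⟨a, b⟩ hab
      simp only [mem_filter, mem_univ, true_and] at hab ⊢
      exact ⟨a.2, b.2, hab⟩
    · rintro ⟨a, b⟩ _ ⟨a', b'⟩ _ hab
      simp only [Prod.mk.injEq] at hab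
      exact Prod.ext (Subtype.ext hab.1) (Subtype.ext hab.2)
    · rintro ⟨a, b⟩ hab
      simp only [mem_filter, mem_univ, true_and] at hab
      refine ⟨(⟨a, hab.1⟩, ⟨b, hab.2.1⟩), ?_, rfl⟩
      simp only [mem_filter, mem_univ, true_and]
      exact hab.2.2
  have h4 : Fintype.card (U : Set V) = U.card := by simp
  rw [h4] at h1
  omega


section Classes

variable {ι : Type} [Fintype ι] [DecidableEq ι]

/-- class `i` of the labelling `f` outside `S` -/
def cls (S : Finset V) (f : V → ι) (i : ι) : Finset V := univ.filter fun a => a ∉ S ∧ f a = i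

omit [Fintype ι] in
theorem mem_cls (S : Finset V) (f : V → ι) (i : ι) (a : V) :
    a ∈ cls S f i ↔ a ∉ S ∧ f a = i := by simp [cls]

theorem sum_cls (S : Finset V) (f : V → ι) :
    ∑ i, (cls S f i).card + S.card = Fintype.card V := by
  have h1 : (univ \ S).card = ∑ i, (cls S f i).card := by
    rw [Finset.card_eq_sum_card_fiberwise (f := f) (t := univ) (fun _ _ => mem_univ _)]
    refine sum_congr rfl fun i _ => ?_
    congr 1
    ext a
    simp [cls]
  rw [← h1, Finset.card_sdiff_add_card_eq_card (subset_univ S), card_univ]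

theorem cls_disj (S : Finset V) (f : V → ι) {i j : ι} (h : i ≠ j) :
    Disjoint (cls S f i) (cls S f j) := by
  rw [Finset.disjoint_left]
  intro a ha hb
  rw [mem_cls] at ha hb
  exact h (ha.2.symm.trans hb.2)

open Classical in
/-- the number of edges of the colour, via the cover `(S, f)` -/
theorem darts_le (G R : SimpleGraph V) (hG : Cubic G) (hRG : R ≤ G) (S : Finset V) (f : V → ι)
    (hf : ∀ a b, R.Adj a b → a ∉ S → b ∉ S → f a = f b) :
    dn R ≤ 6 * S.card + ∑ i, inn G (cls S f i) := by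
  have h1 : (univ.filter fun p : V × V => R.Adj p.1 p.2) ⊆
      (univ.filter fun p : V × V => p.1 ∈ S ∧ G.Adj p.1 p.2) ∪
      ((univ.filter fun p : V × V => p.1 ∈ S ∧ G.Adj p.1 p.2).image Prod.swap ∪
      univ.biUnion fun i => univ.filter fun p : V × V => p.1 ∈ cls S f i ∧ p.2 ∈ cls S f i ∧
        G.Adj p.1 p.2) := by
    rintro ⟨a, b⟩ hab
    simp only [mem_filter, mem_univ, true_and] at hab
    simp only [mem_union, mem_filter, mem_univ, true_and, mem_image, mem_biUnion, Prod.exists,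
      Prod.swap_prod_mk, Prod.mk.injEq]
    have hab' := hRG hab
    by_cases ha : a ∈ S
    · exact Or.inl ⟨ha, hab'⟩
    · by_cases hb : b ∈ S
      · exact Or.inr (Or.inl ⟨b, a, ⟨hb, hab'.symm⟩, rfl, rfl⟩)
      · refine Or.inr (Or.inr ⟨f a, ?_, ?_, hab'⟩)
        · rw [mem_cls]; exact ⟨ha, rfl⟩
        · rw [mem_cls]; exact ⟨hb, (hf a b hab ha hb).symm⟩
  refine (card_le_card h1).trans ((card_union_le _ _).trans ?_)
  refine (Nat.add_le_add_left (card_union_le _ _) _).trans ?_
  have h2 := darts_from G hG S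
  have h3 : ((univ.filter fun p : V × V => p.1 ∈ S ∧ G.Adj p.1 p.2).image Prod.swap).card ≤
      3 * S.card := h2 ▸ card_image_le
  have h4 : (univ.biUnion fun i => univ.filter fun p : V × V => p.1 ∈ cls S f i ∧
      p.2 ∈ cls S f i ∧ G.Adj p.1 p.2).card ≤ ∑ i, inn G (cls S f i) := card_biUnion_le
  omega

/-- the odd indicator -/
def od (U : Finset V) : ℕ := if Odd U.card then 1 else 0

theorem sum_od (S : Finset V) (f : V → ι) :
    ∑ i, od (cls S f i) = (univ.filter fun i : ι => Odd (univ.filter fun a => a ∉ S ∧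
      f a = i).card).card := by
  simp only [od]
  rw [Finset.sum_ite]
  simp [cls]

theorem od_le (U : Finset V) : od U ≤ U.card := by
  unfold od
  split_ifs with h
  · exact h.pos
  · exact Nat.zero_le _

theorem od_le_one (U : Finset V) : od U ≤ 1 := by
  unfold od
  split_ifs <;> omega

/-- upper bound for the number of darts of one colour -/
theorem darts_le' (G R : SimpleGraph V) (hG : Cubic G) (hRG : R ≤ G) (S : Finset V) (f : V → ι)
    (hf : ∀ a b, R.Adj a b → a ∉ S → b ∉ S → f a = f b) (k : ℕ)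
    (hk : Fintype.card V + S.card ≤ 2 * k + ∑ i, od (cls S f i)) :
    dn R + ∑ i, bd G (cls S f i) ≤ 6 * k + 3 * ∑ i, od (cls S f i) := by
  classical
  have h1 := darts_le G R hG hRG S f hf
  have h2 : ∑ i, bd G (cls S f i) + ∑ i, inn G (cls S f i) = 3 * ∑ i, (cls S f i).card := by
    rw [← sum_add_distrib, mul_sum]
    exact sum_congr rfl fun i _ => bd_add_inn G hG _
  have h3 := sum_cls S f
  omega

/-- classes are not too large and `S` is not too large -/
theorem cls_card_le (S : Finset V) (f : V → ι) (k : ℕ)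
    (hk : Fintype.card V + S.card ≤ 2 * k + ∑ i, od (cls S f i)) :
    S.card ≤ k ∧ ∀ i, (cls S f i).card ≤ 2 * k + 1 := by
  have h3 := sum_cls S f
  have h1 : ∑ i, od (cls S f i) ≤ ∑ i, (cls S f i).card := sum_le_sum fun i _ => od_le _
  refine ⟨by omega, fun i => ?_⟩
  have h4 : ∑ j, od (cls S f j) = od (cls S f i) + ∑ j ∈ univ.erase i, od (cls S f j) :=
    (add_sum_erase _ _ (mem_univ i)).symm
  have h5 : ∑ j, (cls S f j).card = (cls S f i).card + ∑ j ∈ univ.erase i, (cls S f j).card :=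
    (add_sum_erase _ _ (mem_univ i)).symm
  have h6 : ∑ j ∈ univ.erase i, od (cls S f j) ≤ ∑ j ∈ univ.erase i, (cls S f j).card :=
    sum_le_sum fun i _ => od_le _
  have h7 := od_le_one (cls S f i)
  omega


/-- few small classes contain a cycle -/
theorem card_cyc_le (G : SimpleGraph V) (S : Finset V) (f : V → ι) (K m : ℕ) (hm : 0 < m)
    (hS : ∀ j, j + 3 ≤ K → ¬ ∃ x : Fin m × Fin (j + 3) → V, Function.Injective x ∧
      ∀ a b, G.Adj (x (a, b)) (x (a, b + 1)))
    (B : Finset ι) (hB : ∀ i ∈ B, ∃ j, j + 3 ≤ K ∧ CycIn G (cls S f i) j) :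
    B.card ≤ K * m := by
  classical
  by_contra hcon
  push Not at hcon
  choose! j hj1 hj2 using hB
  have h1 : ∀ i ∈ B, j i ∈ range K := fun i hi => by
    have := hj1 i hi
    rw [mem_range]; omega
  have h2 : (range K).card * m < B.card := by rw [card_range]; exact hcon
  obtain ⟨j₀, hj₀, hlt⟩ := Finset.exists_lt_card_fiber_of_mul_lt_card_of_maps_to h1 h2
  obtain ⟨T, hT, hTc⟩ := Finset.exists_subset_card_eq hlt.le
  have hTB : ∀ i ∈ T, i ∈ B ∧ j i = j₀ := fun i hi => by
    have := hT hi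
    rwa [mem_filter] at this
  let e : Fin m ≃ T := (Fintype.equivFinOfCardEq (by simpa using hTc)).symm
  have hcyc : ∀ a : Fin m, CycIn G (cls S f (e a)) j₀ := fun a => by
    obtain ⟨h3, h4⟩ := hTB _ (e a).2
    rw [← h4]
    exact hj2 _ h3
  choose x hx1 hx2 hx3 using hcyc
  have hj3 : j₀ + 3 ≤ K := by
    have hpos : 0 < (B.filter fun i => j i = j₀).card := by omega
    obtain ⟨i, hi⟩ := card_pos.1 hpos
    rw [mem_filter] at hi
    rw [← hi.2]
    exact hj1 i hi.1
  refine hS j₀ hj3 ⟨fun p => x p.1 p.2, ?_, fun a b => hx3 a b⟩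
  rintro ⟨a, b⟩ ⟨a', b'⟩ hab
  simp only at hab
  have h5 := hx2 a b
  have h6 := hx2 a' b'
  rw [hab, mem_cls] at h5
  rw [mem_cls] at h6
  have h7 : e a = e a' := Subtype.ext (h5.2.symm.trans h6.2)
  have h8 : a = a' := e.injective h7
  subst h8
  have h9 := hx1 a hab
  rw [h9]

theorem bd_biUnion_le (G : SimpleGraph V) (S : Finset V) (f : V → ι) (D : Finset ι) :
    bd G (D.biUnion fun i => cls S f i) ≤ ∑ i ∈ D, bd G (cls S f i) := by
  classical
  have h1 : (univ.filter fun p : V × V => p.1 ∈ (D.biUnion fun i => cls S f i) ∧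
      p.2 ∉ (D.biUnion fun i => cls S f i) ∧ G.Adj p.1 p.2) ⊆
      D.biUnion fun i => univ.filter fun p : V × V => p.1 ∈ cls S f i ∧
      p.2 ∉ cls S f i ∧ G.Adj p.1 p.2 := by
    rintro ⟨a, b⟩ hab
    simp only [mem_filter, mem_univ, true_and, mem_biUnion, not_exists, not_and] at hab ⊢
    obtain ⟨⟨i, hi, hai⟩, h2, h3⟩ := hab
    exact ⟨i, hi, hai, h2 i hi, h3⟩
  have h2 := (card_le_card h1).trans card_biUnion_le
  exact h2

/-- the classes with small boundary have small total size -/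
theorem small_bd_total (G : SimpleGraph V) (S : Finset V) (f : V → ι) (c t : ℝ)
    (ht : 0 < t) (T : ℝ) (hT : 2 * t ≤ T)
    (hE : ∀ U : Finset V, t ≤ U.card → (U.card : ℝ) ≤ T → c * U.card ≤ bd G U)
    (D : Finset ι) (hD1 : ∀ i ∈ D, ((cls S f i).card : ℝ) ≤ T)
    (hD2 : ∀ i ∈ D, (bd G (cls S f i) : ℝ) < c * (cls S f i).card) :
    ∑ i ∈ D, ((cls S f i).card : ℝ) < t := by
  classical
  by_contra hcon
  push Not at hcon
  let 𝒯 : Finset (Finset ι) := D.powerset.filter fun D' => t ≤ ∑ i ∈ D', ((cls S f i).card : ℝ)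
  have hne : 𝒯.Nonempty := ⟨D, by
    simp only [𝒯, mem_filter, mem_powerset, Subset.refl, true_and]; exact hcon⟩
  obtain ⟨D', hD', hmin⟩ := Finset.exists_min_image 𝒯 (fun D' => D'.card) hne
  simp only [𝒯, mem_filter, mem_powerset] at hD' hmin
  have hDne : D'.Nonempty := by
    rw [nonempty_iff_ne_empty]
    rintro rfl
    simp at hD'
    linarith
  obtain ⟨i, hi⟩ := hDne
  have h1 : ∑ j ∈ D'.erase i, ((cls S f j).card : ℝ) < t := by
    by_contra h
    push Not at h
    have := hmin (D'.erase i) ⟨(erase_subset _ _).trans hD'.1, h⟩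
    rw [card_erase_of_mem hi] at this
    have h2 : 0 < D'.card := card_pos.2 ⟨i, hi⟩
    omega
  have h2 : ((cls S f i).card : ℝ) < t := by
    by_contra h
    push Not at h
    have h3 := hE _ h (hD1 i (hD'.1 hi))
    have h4 := hD2 i (hD'.1 hi)
    linarith
  have h3 : ∑ j ∈ D', ((cls S f j).card : ℝ) < 2 * t := by
    rw [← add_sum_erase _ _ hi]
    linarith
  have h4 : ((D'.biUnion fun i => cls S f i).card : ℝ) = ∑ j ∈ D', ((cls S f j).card : ℝ) := by
    rw [card_biUnion]
    · push_cast; rfl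
    · intro a _ b _ hab
      exact cls_disj S f hab
  have h5 := hE (D'.biUnion fun i => cls S f i) (by rw [h4]; exact hD'.2) (by rw [h4]; linarith)
  have h6 : (bd G (D'.biUnion fun i => cls S f i) : ℝ) ≤ ∑ i ∈ D', (bd G (cls S f i) : ℝ) := by
    exact_mod_cast bd_biUnion_le G S f D'
  have h7 : ∑ i ∈ D', (bd G (cls S f i) : ℝ) < ∑ i ∈ D', c * ((cls S f i).card : ℝ) := by
    apply sum_lt_sum_of_nonempty ⟨i, hi⟩
    intro j hj
    exact hD2 j (hD'.1 hj)
  rw [← mul_sum, ← h4] at h7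
  linarith

/-- the value inequality -/
theorem value_ge (G : SimpleGraph V) (hG : Cubic G) (S : Finset V) (f : V → ι) (c t T : ℝ)
    (K m : ℕ) (hm : 0 < m) (hc0 : 0 < c) (hc1 : c ≤ 1) (hK : 6 / c ≤ K)
    (ht : 0 < t) (hT : 2 * t ≤ T)
    (hE : ∀ U : Finset V, t ≤ U.card → (U.card : ℝ) ≤ T → c * U.card ≤ bd G U)
    (hS : ∀ j, j + 3 ≤ K → ¬ ∃ x : Fin m × Fin (j + 3) → V, Function.Injective x ∧
      ∀ a b, G.Adj (x (a, b)) (x (a, b + 1)))
    (hcl : ∀ i, ((cls S f i).card : ℝ) ≤ T) :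
    c / 2 * ∑ i ∈ univ.filter (fun i => 2 ≤ (cls S f i).card), ((cls S f i).card : ℝ)
      - K * m * (3 + c / 2 * K) - c * t ≤
      ∑ i, ((bd G (cls S f i) : ℝ) - 3 * od (cls S f i)) := by
  classical
  -- the three families
  let N : Finset ι := univ.filter fun i => 2 ≤ (cls S f i).card
  let B : Finset ι := N.filter fun i => ∃ j, j + 3 ≤ K ∧ CycIn G (cls S f i) j
  let D : Finset ι := N.filter fun i => (bd G (cls S f i) : ℝ) < c * (cls S f i).card
  have hBc : B.card ≤ K * m := card_cyc_le G S f K m hm hS B (fun i hi => (mem_filter.1 hi).2)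
  have hDt : ∑ i ∈ D, ((cls S f i).card : ℝ) < t :=
    small_bd_total G S f c t ht T hT hE D (fun i _ => hcl i) (fun i hi => (mem_filter.1 hi).2)
  -- pointwise
  have hpt : ∀ i, (if i ∈ N then c / 2 * ((cls S f i).card : ℝ) else 0)
      - (if i ∈ B then (3 + c / 2 * K) else 0)
      - (if i ∈ D then c * ((cls S f i).card : ℝ) else 0) ≤
      (bd G (cls S f i) : ℝ) - 3 * od (cls S f i) := by
    intro i
    have hbd0 : (0 : ℝ) ≤ bd G (cls S f i) := Nat.cast_nonneg _
    have hod1 : (od (cls S f i) : ℝ) ≤ 1 := by exact_mod_cast od_le_one _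
    have hcard0 : (0 : ℝ) ≤ (cls S f i).card := Nat.cast_nonneg _
    by_cases hN : i ∈ N
    · rw [if_pos hN]
      have h2 : 2 ≤ (cls S f i).card := (mem_filter.1 hN).2
      have h2' : (2 : ℝ) ≤ (cls S f i).card := by exact_mod_cast h2
      have hK0 : (0 : ℝ) ≤ K := Nat.cast_nonneg _
      by_cases hcyc : ∃ j, j + 3 ≤ (cls S f i).card ∧ CycIn G (cls S f i) j
      · by_cases hKi : (cls S f i).card ≤ K
        · have hB : i ∈ B := by
            obtain ⟨j, hj1, hj2⟩ := hcyc
            exact mem_filter.2 ⟨hN, j, hj1.trans hKi, hj2⟩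
          rw [if_pos hB]
          have h3 : c / 2 * ((cls S f i).card : ℝ) ≤ c / 2 * K := by
            apply mul_le_mul_of_nonneg_left _ (by linarith)
            exact_mod_cast hKi
          have h4 : 0 ≤ (if i ∈ D then c * ((cls S f i).card : ℝ) else 0) := by
            split_ifs
            · positivity
            · exact le_refl _
          linarith
        · push Not at hKi
          have hKi' : (K : ℝ) ≤ (cls S f i).card := by exact_mod_cast hKi.le
          have h5 : 3 ≤ c / 2 * ((cls S f i).card : ℝ) := by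
            have h6 : 6 / c ≤ (cls S f i).card := hK.trans hKi'
            rw [div_le_iff₀ hc0] at h6
            linarith
          have h4 : 0 ≤ (if i ∈ B then (3 + c / 2 * K) else 0) := by
            split_ifs
            · positivity
            · exact le_refl _
          by_cases hD : i ∈ D
          · rw [if_pos hD]
            linarith
          · rw [if_neg hD]
            have h7 : c * ((cls S f i).card : ℝ) ≤ bd G (cls S f i) := by
              by_contra h
              push Not at h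
              exact hD (mem_filter.2 ⟨hN, h⟩)
            linarith
      · push Not at hcyc
        have h3 := inn_le_of_acyclic G (cls S f i) (card_pos.1 (by omega)) hcyc
        have h4 := bd_add_inn G hG (cls S f i)
        have h5 : (cls S f i).card + 2 ≤ bd G (cls S f i) := by omega
        have h5' : ((cls S f i).card : ℝ) + 2 ≤ bd G (cls S f i) := by exact_mod_cast h5
        have h6 : 0 ≤ (if i ∈ B then (3 + c / 2 * K) else 0) := by
          split_ifs
          · positivity
          · exact le_refl _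
        have h7 : 0 ≤ (if i ∈ D then c * ((cls S f i).card : ℝ) else 0) := by
          split_ifs
          · positivity
          · exact le_refl _
        have h8 : c / 2 * ((cls S f i).card : ℝ) ≤ 1 / 2 * ((cls S f i).card : ℝ) := by
          apply mul_le_mul_of_nonneg_right _ hcard0
          linarith
        linarith
    · have hB : i ∉ B := fun h => hN (mem_filter.1 h).1
      have hD : i ∉ D := fun h => hN (mem_filter.1 h).1
      rw [if_neg hN, if_neg hB, if_neg hD]
      have h2 : (cls S f i).card ≤ 1 := by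
        by_contra h
        exact hN (mem_filter.2 ⟨mem_univ _, by omega⟩)
      have h3 : 3 * od (cls S f i) ≤ bd G (cls S f i) := by
        rcases Nat.lt_or_ge (cls S f i).card 1 with h | h
        · have h4 := od_le (cls S f i)
          omega
        · have h4 : (cls S f i).card = 1 := by omega
          have h5 := od_le_one (cls S f i)
          have h6 := bd_add_inn G hG (cls S f i)
          have h7 : inn G (cls S f i) = 0 := by
            rw [card_eq_one] at h4
            obtain ⟨a, ha⟩ := h4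
            rw [inn, ha, card_eq_zero, filter_eq_empty_iff]
            rintro ⟨x, y⟩ _ ⟨hx, hy, hxy⟩
            rw [mem_singleton] at hx hy
            rw [hx, hy] at hxy
            exact G.loopless.irrefl a hxy
          omega
      have h3' : 3 * (od (cls S f i) : ℝ) ≤ bd G (cls S f i) := by exact_mod_cast h3
      linarith
  have hsum := sum_le_sum fun i (_ : i ∈ (univ : Finset ι)) => hpt i
  rw [sum_sub_distrib, sum_sub_distrib] at hsum
  have e1 : ∑ i, (if i ∈ N then c / 2 * ((cls S f i).card : ℝ) else 0) =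
      c / 2 * ∑ i ∈ N, ((cls S f i).card : ℝ) := by
    rw [mul_sum, Finset.sum_ite_mem, univ_inter]
  have e2 : ∑ i, (if i ∈ B then (3 + c / 2 * K) else 0) = B.card * (3 + c / 2 * K) := by
    rw [Finset.sum_ite_mem, univ_inter, sum_const, nsmul_eq_mul]
  have e3 : ∑ i, (if i ∈ D then c * ((cls S f i).card : ℝ) else 0) =
      c * ∑ i ∈ D, ((cls S f i).card : ℝ) := by
    rw [mul_sum, Finset.sum_ite_mem, univ_inter]
  rw [e1, e2, e3] at hsum
  have h8 : (B.card : ℝ) * (3 + c / 2 * K) ≤ K * m * (3 + c / 2 * K) := by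
    apply mul_le_mul_of_nonneg_right
    · exact_mod_cast hBc
    · positivity
  have h9 : c * ∑ i ∈ D, ((cls S f i).card : ℝ) ≤ c * t :=
    mul_le_mul_of_nonneg_left hDt.le hc0.le
  linarith


/-- vertices in big classes -/
theorem card_big_le (S : Finset V) (f : V → ι) :
    (univ.filter fun a => a ∉ S ∧ 2 ≤ (cls S f (f a)).card).card ≤
      ∑ i ∈ univ.filter (fun i => 2 ≤ (cls S f i).card), (cls S f i).card := by
  classical
  have h1 : (univ.filter fun a => a ∉ S ∧ 2 ≤ (cls S f (f a)).card) ⊆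
      (univ.filter (fun i => 2 ≤ (cls S f i).card)).biUnion fun i => cls S f i := by
    intro a ha
    simp only [mem_filter, mem_univ, true_and, mem_biUnion] at ha ⊢
    exact ⟨f a, ha.2, (mem_cls S f (f a) a).2 ⟨ha.1, rfl⟩⟩
  exact (card_le_card h1).trans card_biUnion_le

end Classes

/-- The deterministic theorem. -/
theorem det (G R B : SimpleGraph V) (hG : Cubic G) (hR : R ≤ G) (hB : B ≤ G)
    (hRB : ∀ a b, G.Adj a b → R.Adj a b ∨ B.Adj a b) (k : ℕ)
    (hRk : ∀ M, IsMat R M → M.card ≤ k) (hBk : ∀ M, IsMat B M → M.card ≤ k)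
    (c t T : ℝ) (K m : ℕ) (hm : 0 < m) (hc0 : 0 < c) (hc1 : c ≤ 1) (hK : 6 / c ≤ K)
    (ht : 0 < t) (hT : 2 * t ≤ T) (hkT : (2 * k + 1 : ℝ) ≤ T)
    (hE : ∀ U : Finset V, t ≤ U.card → (U.card : ℝ) ≤ T → c * U.card ≤ bd G U)
    (hS : ∀ j, j + 3 ≤ K → ¬ ∃ x : Fin m × Fin (j + 3) → V, Function.Injective x ∧
      ∀ a b, G.Adj (x (a, b)) (x (a, b + 1))) :
    ∃ W : Finset V, (∀ a ∈ W, ∀ b ∈ W, ¬ G.Adj a b) ∧
      (Fintype.card V : ℝ) - 2 * k - 2 / c * ((12 * k - 3 * Fintype.card V) +
        2 * (K * m * (3 + c / 2 * K) + c * t)) ≤ W.card := by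
  classical
  obtain ⟨S₁, ι₁, _, _, f₁, hf₁, hk₁⟩ := berge R k hRk
  obtain ⟨S₂, ι₂, _, _, f₂, hf₂, hk₂⟩ := berge B k hBk
  have hk₁' : Fintype.card V + S₁.card ≤ 2 * k + ∑ i, od (cls S₁ f₁ i) := by
    rw [sum_od]; exact hk₁
  have hk₂' : Fintype.card V + S₂.card ≤ 2 * k + ∑ i, od (cls S₂ f₂ i) := by
    rw [sum_od]; exact hk₂
  obtain ⟨hc₁, hd₁⟩ := cls_card_le S₁ f₁ k hk₁'
  obtain ⟨hc₂, hd₂⟩ := cls_card_le S₂ f₂ k hk₂'
  have hv₁ := value_ge G hG S₁ f₁ c t T K m hm hc0 hc1 hK ht hT hE hS (fun i => by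
    refine le_trans ?_ hkT
    exact_mod_cast hd₁ i)
  have hv₂ := value_ge G hG S₂ f₂ c t T K m hm hc0 hc1 hK ht hT hE hS (fun i => by
    refine le_trans ?_ hkT
    exact_mod_cast hd₂ i)
  have hD₁ := darts_le' G R hG hR S₁ f₁ hf₁ k hk₁'
  have hD₂ := darts_le' G B hG hB S₂ f₂ hf₂ k hk₂'
  have hall : 3 * Fintype.card V ≤ dn R + dn B := by
    have h1 := darts_from G hG univ
    rw [card_univ] at h1
    rw [← h1]
    refine le_trans (card_le_card ?_) (card_union_le _ _)
    rintro ⟨a, b⟩ hab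
    simp only [mem_filter, mem_univ, true_and, mem_union] at hab ⊢
    exact hRB a b hab
  have hval : ∑ i, ((bd G (cls S₁ f₁ i) : ℝ) - 3 * od (cls S₁ f₁ i)) +
      ∑ i, ((bd G (cls S₂ f₂ i) : ℝ) - 3 * od (cls S₂ f₂ i)) ≤ 12 * k - 3 * Fintype.card V := by
    rw [sum_sub_distrib, sum_sub_distrib, ← mul_sum, ← mul_sum]
    have h1 : 3 * Fintype.card V + ∑ i, bd G (cls S₁ f₁ i) + ∑ i, bd G (cls S₂ f₂ i) ≤
        12 * k + 3 * ∑ i, od (cls S₁ f₁ i) + 3 * ∑ i, od (cls S₂ f₂ i) := by omega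
    have h2 : (3 * Fintype.card V + ∑ i, bd G (cls S₁ f₁ i) + ∑ i, bd G (cls S₂ f₂ i) : ℝ) ≤
        12 * k + 3 * ∑ i, od (cls S₁ f₁ i) + 3 * ∑ i, od (cls S₂ f₂ i) := by exact_mod_cast h1
    push_cast at h2
    linarith
  set N₁ : ℝ := ∑ i ∈ univ.filter (fun i => 2 ≤ (cls S₁ f₁ i).card), ((cls S₁ f₁ i).card : ℝ)
    with hN₁
  set N₂ : ℝ := ∑ i ∈ univ.filter (fun i => 2 ≤ (cls S₂ f₂ i).card), ((cls S₂ f₂ i).card : ℝ)
    with hN₂
  have hN : N₁ + N₂ ≤ 2 / c * ((12 * k - 3 * Fintype.card V) +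
        2 * (K * m * (3 + c / 2 * K) + c * t)) := by
    have h1 : c / 2 * (N₁ + N₂) ≤ (12 * k - 3 * Fintype.card V) +
        2 * (K * m * (3 + c / 2 * K) + c * t) := by linarith
    have h2 := mul_le_mul_of_nonneg_left h1 (by positivity : (0 : ℝ) ≤ 2 / c)
    have h3 : 2 / c * (c / 2 * (N₁ + N₂)) = N₁ + N₂ := by field_simp
    rw [h3] at h2
    exact h2
  let W : Finset V := univ.filter fun a => a ∉ S₁ ∧ a ∉ S₂ ∧ (cls S₁ f₁ (f₁ a)).card ≤ 1 ∧
    (cls S₂ f₂ (f₂ a)).card ≤ 1
  refine ⟨W, ?_, ?_⟩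
  · intro a ha b hb hab
    simp only [W, mem_filter, mem_univ, true_and] at ha hb
    have hne : a ≠ b := hab.ne
    rcases hRB a b hab with h | h
    · have h1 := hf₁ a b h ha.1 hb.1
      have h2 := ha.2.2.1
      rw [card_le_one] at h2
      exact hne (h2 a ((mem_cls _ _ _ _).2 ⟨ha.1, rfl⟩) b ((mem_cls _ _ _ _).2 ⟨hb.1, h1.symm⟩))
    · have h1 := hf₂ a b h ha.2.1 hb.2.1
      have h2 := ha.2.2.2
      rw [card_le_one] at h2
      exact hne (h2 a ((mem_cls _ _ _ _).2 ⟨ha.2.1, rfl⟩) b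
        ((mem_cls _ _ _ _).2 ⟨hb.2.1, h1.symm⟩))
  · have hcov : (univ : Finset V) ⊆ W ∪ (S₁ ∪ (S₂ ∪
        ((univ.filter fun a => a ∉ S₁ ∧ 2 ≤ (cls S₁ f₁ (f₁ a)).card) ∪
        (univ.filter fun a => a ∉ S₂ ∧ 2 ≤ (cls S₂ f₂ (f₂ a)).card)))) := by
      intro a _
      simp only [W, mem_union, mem_filter, mem_univ, true_and]
      by_cases h1 : a ∈ S₁
      · tauto
      · by_cases h2 : a ∈ S₂
        · tauto
        · by_cases h3 : (cls S₁ f₁ (f₁ a)).card ≤ 1
          · by_cases h4 : (cls S₂ f₂ (f₂ a)).card ≤ 1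
            · exact Or.inl ⟨h1, h2, h3, h4⟩
            · exact Or.inr (Or.inr (Or.inr (Or.inr ⟨h2, by omega⟩)))
          · exact Or.inr (Or.inr (Or.inr (Or.inl ⟨h1, by omega⟩)))
    have h1 := card_le_card hcov
    have h2 := card_union_le W (S₁ ∪ (S₂ ∪
        ((univ.filter fun a => a ∉ S₁ ∧ 2 ≤ (cls S₁ f₁ (f₁ a)).card) ∪
        (univ.filter fun a => a ∉ S₂ ∧ 2 ≤ (cls S₂ f₂ (f₂ a)).card))))
    have h3 := card_union_le S₁ (S₂ ∪
        ((univ.filter fun a => a ∉ S₁ ∧ 2 ≤ (cls S₁ f₁ (f₁ a)).card) ∪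
        (univ.filter fun a => a ∉ S₂ ∧ 2 ≤ (cls S₂ f₂ (f₂ a)).card)))
    have h4 := card_union_le S₂
        ((univ.filter fun a => a ∉ S₁ ∧ 2 ≤ (cls S₁ f₁ (f₁ a)).card) ∪
        (univ.filter fun a => a ∉ S₂ ∧ 2 ≤ (cls S₂ f₂ (f₂ a)).card))
    have h5 := card_union_le
        (univ.filter fun a => a ∉ S₁ ∧ 2 ≤ (cls S₁ f₁ (f₁ a)).card)
        (univ.filter fun a => a ∉ S₂ ∧ 2 ≤ (cls S₂ f₂ (f₂ a)).card)
    have h6 := card_big_le S₁ f₁
    have h7 := card_big_le S₂ f₂
    rw [card_univ] at h1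
    have h8 : Fintype.card V ≤ W.card + (k + (k +
        (∑ i ∈ univ.filter (fun i => 2 ≤ (cls S₁ f₁ i).card), (cls S₁ f₁ i).card +
        ∑ i ∈ univ.filter (fun i => 2 ≤ (cls S₂ f₂ i).card), (cls S₂ f₂ i).card))) := by
      omega
    have h9 : (Fintype.card V : ℝ) ≤ W.card + (k + (k + (N₁ + N₂))) := by
      rw [hN₁, hN₂]
      exact_mod_cast h8
    linarith

end Pool.Agent.WCL
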