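import Pool.Agent.Lib_MP_76d27f_co.Splits

/-!
# Probability estimates
-/

set_option autoImplicit false
set_option linter.unusedSectionVars false
set_option linter.unusedVariables false

namespace Pool.Agent.WCL

open Finset

theorem choose_mul_le (N a : ℕ) (ha : a ≤ N) (p : ℝ) (hp0 : 0 ≤ p) (hp1 : p ≤ 1) :
    (N.choose a : ℝ) * (p ^ a * (1 - p) ^ (N - a)) ≤ 1 := by
  have h1 := add_pow p (1 - p) N
  rw [add_sub_cancel, one_pow] at h1
  have h2 : ∀ m ∈ range (N + 1), 0 ≤ p ^ m * (1 - p) ^ (N - m) * (N.choose m : ℝ) := by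
    intro m _
    have : 0 ≤ 1 - p := by linarith
    positivity
  have h3 := single_le_sum h2 (mem_range.2 (Nat.lt_succ_of_le ha))
  rw [← h1] at h3
  linarith

theorem choose_mul_ge (N a : ℕ) (ha : a ≤ N) (hN : 0 < N) :
    1 ≤ ((N : ℝ) + 1) * ((N.choose a : ℝ) * (((a : ℝ) / N) ^ a * (1 - (a : ℝ) / N) ^ (N - a))) := by
  set p : ℝ := (a : ℝ) / N with hp
  have hN' : (0 : ℝ) < N := by exact_mod_cast hN
  have hpN : p * N = a := by rw [hp]; field_simp
  have hp0 : 0 ≤ p := by positivity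
  have hp1 : p ≤ 1 := by
    rw [hp, div_le_one hN']
    exact_mod_cast ha
  let t : ℕ → ℝ := fun j => (N.choose j : ℝ) * (p ^ j * (1 - p) ^ (N - j))
  have ht0 : ∀ j, 0 ≤ t j := fun j => by
    have : 0 ≤ 1 - p := by linarith
    positivity
  have hrel : ∀ j, j < N → t (j + 1) * ((j + 1) * (1 - p)) = t j * ((N - j) * p) := by
    intro j hj
    have h1 : ((N.choose (j + 1) : ℝ)) * (j + 1) = (N.choose j : ℝ) * (N - j) := by
      have h2 := Nat.choose_succ_right_eq N j
      have h3 : ((N - j : ℕ) : ℝ) = N - j := by rw [Nat.cast_sub hj.le]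
      rw [← h3]
      exact_mod_cast h2
    have h4 : N - j = (N - (j + 1)) + 1 := by omega
    simp only [t]
    rw [h4]
    calc (N.choose (j + 1) : ℝ) * (p ^ (j + 1) * (1 - p) ^ (N - (j + 1))) * ((j + 1) * (1 - p))
        = (N.choose (j + 1) : ℝ) * (j + 1) * (p ^ (j + 1) * (1 - p) ^ (N - (j + 1) + 1)) := by ring
      _ = (N.choose j : ℝ) * (N - j) * (p ^ (j + 1) * (1 - p) ^ (N - (j + 1) + 1)) := by rw [h1]
      _ = _ := by ring
  -- increasing up to `a`
  have hup : ∀ d, d ≤ a → t (a - d) ≤ t a := by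
    intro d
    induction d with
    | zero => intro _; simp
    | succ d ih =>
      intro hd
      refine le_trans ?_ (ih (by omega))
      have h5 : a - d = (a - (d + 1)) + 1 := by omega
      rw [h5]
      set j := a - (d + 1) with hj
      have hjN : j < N := by omega
      have h6 := hrel j hjN
      have hja : (j : ℝ) + 1 ≤ a := by
        have : j + 1 ≤ a := by omega
        exact_mod_cast this
      have hjN' : (j : ℝ) < N := by exact_mod_cast hjN
      have haN' : (a : ℝ) ≤ N := by exact_mod_cast ha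
      have hj0 : (0 : ℝ) ≤ j := Nat.cast_nonneg _
      have hp2 : 0 < p := by
        rw [hp]
        apply div_pos _ hN'
        linarith
      have h7 : ((j : ℝ) + 1) * (1 - p) ≤ (N - j) * p := by
        have e1 : ((j : ℝ) + 1) * (1 - p) * N = (j + 1) * (N - a) := by
          rw [← hpN]; ring
        have e2 : ((N : ℝ) - j) * p * N = (N - j) * a := by
          rw [← hpN]; ring
        have e3 : ((j : ℝ) + 1) * (N - a) ≤ (N - j) * a := by nlinarith
        rw [← e1, ← e2] at e3
        exact le_of_mul_le_mul_right e3 hN'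
      have h8 : t j * (((N : ℝ) - j) * p) ≤ t (j + 1) * ((N - j) * p) := by
        rw [← h6]
        exact mul_le_mul_of_nonneg_left h7 (ht0 _)
      exact le_of_mul_le_mul_right h8 (mul_pos (by linarith) hp2)
  have hdown : ∀ d, a + d ≤ N → t (a + d) ≤ t a := by
    intro d
    induction d with
    | zero => intro _; simp
    | succ d ih =>
      intro hd
      refine le_trans ?_ (ih (by omega))
      rw [← add_assoc]
      set j := a + d with hj
      have hjN : j < N := by omega
      have h6 := hrel j hjN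
      have hja : (a : ℝ) ≤ j := by
        have : a ≤ j := by omega
        exact_mod_cast this
      have hjN' : (j : ℝ) + 1 ≤ N := by exact_mod_cast hjN
      have ha0 : (0 : ℝ) ≤ a := Nat.cast_nonneg _
      have hp2 : 0 < 1 - p := by
        rw [hp, sub_pos, div_lt_one hN']
        linarith
      have h7 : ((N : ℝ) - j) * p ≤ (j + 1) * (1 - p) := by
        have e1 : ((j : ℝ) + 1) * (1 - p) * N = (j + 1) * (N - a) := by
          rw [← hpN]; ring
        have e2 : ((N : ℝ) - j) * p * N = (N - j) * a := by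
          rw [← hpN]; ring
        have e3 : ((N : ℝ) - j) * a ≤ (j + 1) * (N - a) := by nlinarith
        rw [← e1, ← e2] at e3
        exact le_of_mul_le_mul_right e3 hN'
      have h8 : t (j + 1) * (((j : ℝ) + 1) * (1 - p)) ≤ t j * ((j + 1) * (1 - p)) := by
        rw [h6]
        exact mul_le_mul_of_nonneg_left h7 (ht0 _)
      exact le_of_mul_le_mul_right h8 (mul_pos (by linarith) hp2)
  have hall : ∀ j, j ≤ N → t j ≤ t a := by
    intro j hj
    rcases le_total j a with h | h
    · have := hup (a - j) (by omega)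
      rwa [show a - (a - j) = j by omega] at this
    · have := hdown (j - a) (by omega)
      rwa [show a + (j - a) = j by omega] at this
  have h1 := add_pow p (1 - p) N
  rw [add_sub_cancel, one_pow] at h1
  have h2 : ∑ m ∈ range (N + 1), p ^ m * (1 - p) ^ (N - m) * (N.choose m : ℝ) ≤
      ∑ m ∈ range (N + 1), t a := by
    refine sum_le_sum fun m hm => ?_
    have := hall m (Nat.lt_succ_iff.1 (mem_range.1 hm))
    simp only [t] at this ⊢
    linarith
  rw [sum_const, card_range, nsmul_eq_mul] at h2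
  push_cast at h2
  rw [← h1] at h2
  exact h2


/-- the union bound over sets of size `u` with `f` full and `s` split pairs -/
theorem sum_cnt_fs (k u f s : ℕ) (hu0 : 0 < u) (hu : u ≤ 2 * k) (hfs : 2 * f + s = 3 * u)
    (hus : u + s ≤ 2 * k) :
    (∑ U ∈ powersetCard u (univ : Finset (Fin (2 * k))),
      (cnt (2 * k) (3 * k) (fun w => (full (pre w U)).card = f ∧ (spl (pre w U)).card = s) : ℝ)) ≤
    (6 * k + 1) * ((u : ℝ) / (2 * k)) ^ (2 * u - f) * ((3 * k).choose s * 2 ^ s) *
      (Om (2 * k) (3 * k)).card := by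
  have hk0 : 0 < k := by omega
  have hk0' : (0 : ℝ) < k := by exact_mod_cast hk0
  set p : ℝ := (u : ℝ) / (2 * k) with hp
  have hp0 : 0 ≤ p := by positivity
  have hp1 : p ≤ 1 := by
    rw [hp, div_le_one (by positivity)]
    exact_mod_cast hu
  have hq0 : 0 ≤ 1 - p := by linarith
  set X : ℝ := ∑ U ∈ powersetCard u (univ : Finset (Fin (2 * k))),
      (cnt (2 * k) (3 * k) (fun w => (full (pre w U)).card = f ∧ (spl (pre w U)).card = s) : ℝ)
    with hX
  have hX0 : 0 ≤ X := sum_nonneg fun _ _ => Nat.cast_nonneg _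
  set B : ℝ := ((3 * k).choose s * 2 ^ s : ℝ) with hB
  have hB0 : 0 ≤ B := by positivity
  set O : ℝ := ((Om (2 * k) (3 * k)).card : ℝ) with hO
  have hO0 : 0 ≤ O := Nat.cast_nonneg _
  -- sum of the union bounds
  have h1 : X * ((6 * k).choose (3 * u) : ℝ) ≤
      ((2 * k).choose u : ℝ) * (((3 * k).choose f : ℝ) * B * O) := by
    have h2 : ∀ U ∈ powersetCard u (univ : Finset (Fin (2 * k))),
        (cnt (2 * k) (3 * k) (fun w => (full (pre w U)).card = f ∧
          (spl (pre w U)).card = s) : ℝ) * ((6 * k).choose (3 * u) : ℝ) ≤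
        ((3 * k).choose f : ℝ) * B * O := by
      intro U hU
      rw [mem_powersetCard] at hU
      have h3 := cnt_full_spl (n := 2 * k) (M := 3 * k) U f s (by rw [hU.2, hfs])
      rw [hU.2, show 2 * (3 * k) = 6 * k by ring] at h3
      rw [hB, hO]
      exact_mod_cast h3
    rw [hX, sum_mul]
    refine (sum_le_sum h2).trans ?_
    rw [sum_const, card_powersetCard, card_univ, Fintype.card_fin, nsmul_eq_mul]
  have h4 := choose_mul_le (2 * k) u hu p hp0 hp1
  have h5 := choose_mul_le (3 * k) f (by omega) p hp0 hp1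
  have h6 := choose_mul_ge (6 * k) (3 * u) (by omega) (by omega)
  have h7 : (((3 * u : ℕ) : ℝ) / ((6 * k : ℕ) : ℝ)) = p := by
    rw [hp]; push_cast; field_simp; ring
  rw [h7] at h6
  push_cast at h6
  have h8 : p ^ (3 * u) * (1 - p) ^ (6 * k - 3 * u) =
      (p ^ u * (1 - p) ^ (2 * k - u)) * (p ^ f * (1 - p) ^ (3 * k - f)) *
        (p ^ (2 * u - f) * (1 - p) ^ (k - (2 * u - f))) := by
    have e1 : 3 * u = u + f + (2 * u - f) := by omega
    have e2 : 6 * k - 3 * u = (2 * k - u) + (3 * k - f) + (k - (2 * u - f)) := by omega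
    rw [e2]
    conv_lhs => rw [e1]
    ring
  have h9 : (1 - p) ^ (k - (2 * u - f)) ≤ 1 := pow_le_one₀ hq0 (by linarith)
  set a1 : ℝ := p ^ u * (1 - p) ^ (2 * k - u) with ha1
  set a2 : ℝ := p ^ f * (1 - p) ^ (3 * k - f) with ha2
  have ha10 : 0 ≤ a1 := by positivity
  have ha20 : 0 ≤ a2 := by positivity
  have h10 : X ≤ X * (((6 * k : ℝ) + 1) * (((6 * k).choose (3 * u) : ℝ) *
      (p ^ (3 * u) * (1 - p) ^ (6 * k - 3 * u)))) := le_mul_of_one_le_right hX0 h6
  refine h10.trans ?_
  rw [h8]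
  calc X * (((6 * k : ℝ) + 1) * (((6 * k).choose (3 * u) : ℝ) *
        (a1 * a2 * (p ^ (2 * u - f) * (1 - p) ^ (k - (2 * u - f))))))
      = (X * ((6 * k).choose (3 * u) : ℝ)) * ((6 * k + 1) *
        (a1 * a2 * (p ^ (2 * u - f) * (1 - p) ^ (k - (2 * u - f))))) := by ring
    _ ≤ (((2 * k).choose u : ℝ) * (((3 * k).choose f : ℝ) * B * O)) * ((6 * k + 1) *
        (a1 * a2 * (p ^ (2 * u - f) * (1 - p) ^ (k - (2 * u - f))))) := by
        apply mul_le_mul_of_nonneg_right h1
        positivity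
    _ = (((2 * k).choose u : ℝ) * a1) * (((3 * k).choose f : ℝ) * a2) * ((6 * k + 1) *
        p ^ (2 * u - f) * B * O) * (1 - p) ^ (k - (2 * u - f)) := by ring
    _ ≤ 1 * 1 * ((6 * k + 1) * p ^ (2 * u - f) * B * O) * 1 := by
        apply mul_le_mul
        · apply mul_le_mul_of_nonneg_right
          · exact mul_le_mul h4 h5 (by positivity) zero_le_one
          · positivity
        · exact h9
        · positivity
        · positivity
    _ = (6 * k + 1) * p ^ (2 * u - f) * B * O := by ring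

/-- the union bound for independent sets of size `k - r` -/
theorem sum_cnt_ind (k r : ℕ) (hk0 : 0 < k) (hr : 60 * r ≤ k) :
    (∑ U ∈ powersetCard (k - r) (univ : Finset (Fin (2 * k))),
      (cnt (2 * k) (3 * k) (fun w => (full (pre w U)).card = 0) : ℝ)) ≤
    (6 * k + 1) * 0.7 ^ k * (Om (2 * k) (3 * k)).card := by
  have hk0' : (0 : ℝ) < k := by exact_mod_cast hk0
  set a := k - r with ha
  have hrk : r ≤ k := by omega
  have har : a + r = k := by omega
  set p : ℝ := (a : ℝ) / (2 * k) with hp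
  have hp0 : 0 ≤ p := by positivity
  have hp12 : p ≤ 1 / 2 := by
    rw [hp, div_le_div_iff₀ (by positivity) (by norm_num)]
    have : (a : ℝ) ≤ k := by exact_mod_cast (by omega : a ≤ k)
    linarith
  have hq0 : 0 ≤ 1 - p := by linarith
  set X : ℝ := ∑ U ∈ powersetCard a (univ : Finset (Fin (2 * k))),
      (cnt (2 * k) (3 * k) (fun w => (full (pre w U)).card = 0) : ℝ) with hX
  have hX0 : 0 ≤ X := sum_nonneg fun _ _ => Nat.cast_nonneg _
  set O : ℝ := ((Om (2 * k) (3 * k)).card : ℝ) with hO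
  have hO0 : 0 ≤ O := Nat.cast_nonneg _
  have h1 : X * ((6 * k).choose (3 * a) : ℝ) ≤
      (2 : ℝ) ^ (2 * k) * ((((3 * k).choose (3 * r) : ℝ) * 2 ^ (3 * a)) * O) := by
    have h2 : ∀ U ∈ powersetCard a (univ : Finset (Fin (2 * k))),
        (cnt (2 * k) (3 * k) (fun w => (full (pre w U)).card = 0) : ℝ) *
          ((6 * k).choose (3 * a) : ℝ) ≤
        (((3 * k).choose (3 * r) : ℝ) * 2 ^ (3 * a)) * O := by
      intro U hU
      rw [mem_powersetCard] at hU
      have h3 := cnt_full_spl (n := 2 * k) (M := 3 * k) U 0 (3 * a) (by rw [hU.2]; ring)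
      rw [hU.2, show 2 * (3 * k) = 6 * k by ring, Nat.choose_zero_right, one_mul] at h3
      have h3' : cnt (2 * k) (3 * k) (fun w => (full (pre w U)).card = 0) ≤
          cnt (2 * k) (3 * k) (fun w => (full (pre w U)).card = 0 ∧
            (spl (pre w U)).card = 3 * a) := by
        refine cnt_mono fun w hw h => ⟨h, ?_⟩
        have h4 := card_eq_full_spl (pre w U)
        have h5 := Om_card_pre w hw U
        rw [hU.2] at h5
        have h6 : (pre w U).card = 3 * a := h5
        omega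
      have h7 : (3 * k).choose (3 * a) = (3 * k).choose (3 * r) := by
        rw [← Nat.choose_symm (show 3 * a ≤ 3 * k by omega)]
        congr 1
        omega
      rw [h7] at h3
      have h8 := (Nat.mul_le_mul_right ((6 * k).choose (3 * a)) h3').trans h3
      rw [hO]
      exact_mod_cast h8
    rw [hX, sum_mul]
    refine (sum_le_sum h2).trans ?_
    rw [sum_const, card_powersetCard, card_univ, Fintype.card_fin, nsmul_eq_mul]
    apply mul_le_mul_of_nonneg_right _ (by positivity)
    have h9 : (2 * k).choose a ≤ 2 ^ (2 * k) := Nat.choose_le_two_pow _ _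
    exact_mod_cast h9
  have h6 := choose_mul_ge (6 * k) (3 * a) (by omega) (by omega)
  have h7 : (((3 * a : ℕ) : ℝ) / ((6 * k : ℕ) : ℝ)) = p := by
    rw [hp]; push_cast; field_simp; ring
  rw [h7] at h6
  push_cast at h6
  -- estimates
  have h8 : p ^ (3 * a) * (1 - p) ^ (6 * k - 3 * a) * 2 ^ (3 * a) ≤ (1 / 8 : ℝ) ^ k := by
    have e1 : 6 * k - 3 * a = 3 * a + 6 * r := by omega
    rw [e1]
    have e2 : p ^ (3 * a) * (1 - p) ^ (3 * a + 6 * r) * 2 ^ (3 * a) =
        (p * (1 - p) * 2) ^ (3 * a) * (1 - p) ^ (6 * r) := by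
      rw [mul_pow, mul_pow]; ring
    rw [e2]
    have e3 : p * (1 - p) * 2 ≤ 1 / 2 := by nlinarith [sq_nonneg (1 - 2 * p)]
    have e4 : (p * (1 - p) * 2) ^ (3 * a) ≤ (1 / 2 : ℝ) ^ (3 * a) :=
      pow_le_pow_left₀ (by positivity) e3 _
    have e5 : 1 - p ≤ 0.51 := by
      have : 0.49 ≤ p := by
        rw [hp, le_div_iff₀ (by positivity)]
        have e6 : (a : ℝ) = k - r := by
          have : (a : ℝ) + r = k := by exact_mod_cast har
          linarith
        have e7 : (60 : ℝ) * r ≤ k := by exact_mod_cast hr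
        rw [e6]
        linarith
      linarith
    have e8 : (1 - p) ^ (6 * r) ≤ (0.51 : ℝ) ^ (6 * r) := pow_le_pow_left₀ hq0 e5 _
    have e9 : (0.51 : ℝ) ^ (6 * r) ≤ (1 / 2 : ℝ) ^ (3 * r) := by
      rw [pow_mul, pow_mul]
      exact pow_le_pow_left₀ (by positivity) (by norm_num) _
    calc (p * (1 - p) * 2) ^ (3 * a) * (1 - p) ^ (6 * r)
        ≤ (1 / 2 : ℝ) ^ (3 * a) * (1 / 2 : ℝ) ^ (3 * r) :=
          mul_le_mul e4 (e8.trans e9) (by positivity) (by positivity)
      _ = (1 / 2 : ℝ) ^ (3 * k) := by rw [← pow_add, ← mul_add, har]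
      _ = (1 / 8 : ℝ) ^ k := by rw [pow_mul]; norm_num
  have h9 : ((3 * k).choose (3 * r) : ℝ) ≤ (1.157625 * 1.2) ^ k := by
    have e1 := add_pow (1 : ℝ) (1 / 20) (3 * k)
    have e2 : ∀ m ∈ range (3 * k + 1), (0 : ℝ) ≤ 1 ^ m * (1 / 20) ^ (3 * k - m) *
        ((3 * k).choose m : ℝ) := fun m _ => by positivity
    have e3 := single_le_sum e2 (mem_range.2 (show 3 * k - 3 * r < 3 * k + 1 by omega))
    rw [← e1, one_pow, one_mul, show 3 * k - (3 * k - 3 * r) = 3 * r by omega,
      Nat.choose_symm (show 3 * r ≤ 3 * k by omega)] at e3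
    have e4 : (20 : ℝ) ^ (3 * r) ≤ 1.2 ^ k := by
      calc (20 : ℝ) ^ (3 * r) ≤ (1.2 ^ 20) ^ (3 * r) :=
            pow_le_pow_left₀ (by norm_num) (by norm_num) _
        _ = 1.2 ^ (60 * r) := by rw [← pow_mul]; congr 1; ring
        _ ≤ 1.2 ^ k := pow_le_pow_right₀ (by norm_num) hr
    have e5 : ((3 * k).choose (3 * r) : ℝ) ≤ (1 + 1 / 20) ^ (3 * k) * 20 ^ (3 * r) := by
      have e6 : (0 : ℝ) < 20 ^ (3 * r) := by positivity
      have e7 := mul_le_mul_of_nonneg_right e3 e6.le
      have e8 : (1 / 20 : ℝ) ^ (3 * r) * ((3 * k).choose (3 * r) : ℝ) * 20 ^ (3 * r) =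
          ((3 * k).choose (3 * r) : ℝ) := by
        rw [one_div, inv_pow]
        field_simp
      rw [e8] at e7
      exact e7
    calc ((3 * k).choose (3 * r) : ℝ) ≤ (1 + 1 / 20) ^ (3 * k) * 20 ^ (3 * r) := e5
      _ ≤ (1 + 1 / 20) ^ (3 * k) * 1.2 ^ k := mul_le_mul_of_nonneg_left e4 (by positivity)
      _ = (1.157625 * 1.2) ^ k := by
        rw [pow_mul, ← mul_pow]; norm_num
  have h10 : X ≤ X * (((6 * k : ℝ) + 1) * (((6 * k).choose (3 * a) : ℝ) *
      (p ^ (3 * a) * (1 - p) ^ (6 * k - 3 * a)))) := le_mul_of_one_le_right hX0 h6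
  refine h10.trans ?_
  have hB : (0 : ℝ) ≤ p ^ (3 * a) * (1 - p) ^ (6 * k - 3 * a) := by positivity
  calc X * (((6 * k : ℝ) + 1) * (((6 * k).choose (3 * a) : ℝ) *
        (p ^ (3 * a) * (1 - p) ^ (6 * k - 3 * a))))
      = (X * ((6 * k).choose (3 * a) : ℝ)) * ((6 * k + 1) *
        (p ^ (3 * a) * (1 - p) ^ (6 * k - 3 * a))) := by ring
    _ ≤ ((2 : ℝ) ^ (2 * k) * ((((3 * k).choose (3 * r) : ℝ) * 2 ^ (3 * a)) * O)) * ((6 * k + 1) *
        (p ^ (3 * a) * (1 - p) ^ (6 * k - 3 * a))) := by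
        apply mul_le_mul_of_nonneg_right h1
        positivity
    _ = (6 * k + 1) * ((2 : ℝ) ^ (2 * k) * ((3 * k).choose (3 * r) : ℝ) *
        (p ^ (3 * a) * (1 - p) ^ (6 * k - 3 * a) * 2 ^ (3 * a))) * O := by ring
    _ ≤ (6 * k + 1) * ((2 : ℝ) ^ (2 * k) * (1.157625 * 1.2) ^ k * (1 / 8 : ℝ) ^ k) * O := by
        apply mul_le_mul_of_nonneg_right _ hO0
        apply mul_le_mul_of_nonneg_left _ (by positivity)
        apply mul_le_mul _ h8 (by positivity) (by positivity)
        exact mul_le_mul_of_nonneg_left h9 (by positivity)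
    _ ≤ (6 * k + 1) * 0.7 ^ k * O := by
        apply mul_le_mul_of_nonneg_right _ hO0
        apply mul_le_mul_of_nonneg_left _ (by positivity)
        rw [pow_mul, ← mul_pow, ← mul_pow]
        exact pow_le_pow_left₀ (by norm_num) (by norm_num) _

end Pool.Agent.WCL
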