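import Pool.Agent.Lib_MP_76d27f_co.Graph
import Pool.Agent.Lib_MP_76d27f_co.Prob

/-!
# Assembly
-/

set_option autoImplicit false
set_option linter.unusedSectionVars false
set_option linter.unusedVariables false

namespace Pool.Agent.WCL

open Finset Filter Topology

open Classical in
/-- number of cubic graphs on `Fin n` with property `Q` -/
noncomputable def cub (n : ℕ) (Q : SimpleGraph (Fin n) → Prop) : ℕ :=
  (univ.filter fun G : SimpleGraph (Fin n) => Cubic G ∧ Q G).card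

theorem cnt_eq_cub {n M : ℕ} (hnM : 2 * M = 3 * n) (Q : SimpleGraph (Fin n) → Prop) :
    cnt n M (fun w => Simp w ∧ Q (grW w)) = cub n Q * (M.factorial * 2 ^ M) := by
  classical
  have h1 : cnt n M (fun w => Simp w ∧ Q (grW w)) =
      ∑ G ∈ univ.filter (fun G : SimpleGraph (Fin n) => Cubic G ∧ Q G),
        cnt n M (fun w => Simp w ∧ grW w = G) := by
    have h2 : cnt n M (fun w => Simp w ∧ Q (grW w)) =
        ((Om n M).filter fun w => Simp w ∧ Q (grW w)).card := by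
      apply cnt_eq_card_of
      intro w
      rw [mem_filter]
    rw [h2, Finset.card_eq_sum_card_fiberwise (f := grW)
      (t := univ.filter (fun G : SimpleGraph (Fin n) => Cubic G ∧ Q G))]
    · refine sum_congr rfl fun G hG => ?_
      rw [mem_filter] at hG
      symm
      apply cnt_eq_card_of
      intro w
      simp only [mem_filter]
      constructor
      · rintro ⟨⟨h3, h4, h5⟩, h6⟩
        exact ⟨h3, h4, h6⟩
      · rintro ⟨h3, h4, h5⟩
        refine ⟨⟨h3, h4, ?_⟩, h5⟩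
        rw [h5]
        exact hG.2.2
    · intro w hw
      rw [mem_coe, mem_filter] at hw
      rw [mem_coe, mem_filter]
      exact ⟨mem_univ _, cubic_grW w hw.1 hw.2.1, hw.2.2⟩
  rw [h1]
  have h3 : ∀ G ∈ univ.filter (fun G : SimpleGraph (Fin n) => Cubic G ∧ Q G),
      cnt n M (fun w => Simp w ∧ grW w = G) = M.factorial * 2 ^ M := by
    intro G hG
    rw [mem_filter] at hG
    exact card_fibre hnM G hG.2.1
  rw [sum_congr rfl h3, sum_const, smul_eq_mul]
  unfold cub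
  rfl

theorem ratio (k : ℕ) (hk : 10 ≤ k) (Q : SimpleGraph (Fin (2 * k)) → Prop)
    (E : (Pos (3 * k) → Fin (2 * k)) → Prop)
    (hE : ∀ w ∈ Om (2 * k) (3 * k), Simp w → Q (grW w) → E w) :
    cub (2 * k) Q * (Om (2 * k) (3 * k)).card ≤
      cub (2 * k) (fun _ => True) * (2 * (1 + (6 * k) ^ 2) ^ 7) * cnt (2 * k) (3 * k) E := by
  have h1 := cnt_eq_cub (n := 2 * k) (M := 3 * k) (by ring) Q
  have h2 := cnt_eq_cub (n := 2 * k) (M := 3 * k) (by ring) (fun _ => True)
  have h3 : cnt (2 * k) (3 * k) (fun w => Simp w ∧ Q (grW w)) ≤ cnt (2 * k) (3 * k) E :=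
    cnt_mono fun w hw h => hE w hw h.1 h.2
  have h4 := simple_many (n := 2 * k) (M := 3 * k) (by omega)
  have h5 : cnt (2 * k) (3 * k) (fun w => (badSet w).card = 0) =
      cub (2 * k) (fun _ => True) * ((3 * k).factorial * 2 ^ (3 * k)) := by
    rw [← h2]
    refine cnt_congr fun w _ => ?_
    simp [Simp]
  rw [h5, show 2 * (3 * k) = 6 * k by ring] at h4
  calc cub (2 * k) Q * (Om (2 * k) (3 * k)).card
      ≤ cub (2 * k) Q * (2 * (1 + (6 * k) ^ 2) ^ 7 *
        (cub (2 * k) (fun _ => True) * ((3 * k).factorial * 2 ^ (3 * k)))) :=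
        Nat.mul_le_mul_left _ h4
    _ = cub (2 * k) (fun _ => True) * (2 * (1 + (6 * k) ^ 2) ^ 7) *
        (cub (2 * k) Q * ((3 * k).factorial * 2 ^ (3 * k))) := by ring
    _ ≤ cub (2 * k) (fun _ => True) * (2 * (1 + (6 * k) ^ 2) ^ 7) * cnt (2 * k) (3 * k) E := by
        apply Nat.mul_le_mul_left
        rw [← h1]
        exact h3

theorem Om_pos (k : ℕ) : 0 < (Om (2 * k) (3 * k)).card := by
  classical
  rw [card_pos]
  have hc : Fintype.card (Pos (3 * k)) = Fintype.card (Fin (2 * k) × Fin 3) := by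
    rw [card_Pos, Fintype.card_prod, Fintype.card_fin, Fintype.card_fin]; ring
  let e : Pos (3 * k) ≃ Fin (2 * k) × Fin 3 := Fintype.equivOfCardEq hc
  refine ⟨fun p => (e p).1, ?_⟩
  rw [mem_Om]
  intro v
  have h1 : (univ.filter fun p => (e p).1 = v).card = (univ : Finset (Fin 3)).card := by
    refine card_bij (fun p _ => (e p).2) (fun _ _ => mem_univ _) ?_ ?_
    · intro p hp q hq h
      rw [mem_filter] at hp hq
      exact e.injective (Prod.ext (hp.2.trans hq.2.symm) h)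
    · intro b _
      refine ⟨e.symm (v, b), ?_, ?_⟩
      · rw [mem_filter]
        exact ⟨mem_univ _, by simp⟩
      · simp
  rw [h1, card_univ, Fintype.card_fin]

/-- exponential bound for `C(3k, s) 2^s` with `s` small -/
theorem choose_two_pow_le (lam : ℝ) (hlam : 0 < lam) : ∃ c : ℝ, 0 < c ∧ c ≤ 1 ∧
    ∀ k s : ℕ, (s : ℝ) ≤ 2 * c * k → ((3 * k).choose s : ℝ) * 2 ^ s ≤ Real.exp (lam * k) := by
  set x : ℝ := min (lam / 6) 1 with hx
  have hx0 : 0 < x := lt_min (by positivity) one_pos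
  have hx1 : x ≤ 1 := min_le_right _ _
  have hx6 : x ≤ lam / 6 := min_le_left _ _
  set L : ℝ := Real.log (2 / x) with hL
  have hL0 : 0 < L := by
    apply Real.log_pos
    rw [lt_div_iff₀ hx0]
    linarith
  set c : ℝ := min 1 (lam / (4 * L)) with hc
  refine ⟨c, lt_min one_pos (by positivity), min_le_left _ _, ?_⟩
  intro k s hs
  have hcL : c ≤ lam / (4 * L) := min_le_right _ _
  have h1 : ((3 * k).choose s : ℝ) * x ^ s ≤ (1 + x) ^ (3 * k) := by
    by_cases hsk : s ≤ 3 * k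
    · have e1 := add_pow x 1 (3 * k)
      have e2 : ∀ m ∈ range (3 * k + 1), (0 : ℝ) ≤ x ^ m * 1 ^ (3 * k - m) *
          ((3 * k).choose m : ℝ) := fun m _ => by positivity
      have e3 := single_le_sum e2 (mem_range.2 (Nat.lt_succ_of_le hsk))
      rw [← e1, one_pow] at e3
      rw [add_comm 1 x]
      linarith
    · rw [Nat.choose_eq_zero_of_lt (by omega)]
      simp only [Nat.cast_zero, zero_mul]
      positivity
  have h2 : (1 + x) ^ (3 * k) ≤ Real.exp (lam * k / 2) := by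
    have e1 : 1 + x ≤ Real.exp x := by
      have := Real.add_one_le_exp x
      linarith
    calc (1 + x) ^ (3 * k) ≤ (Real.exp x) ^ (3 * k) := pow_le_pow_left₀ (by positivity) e1 _
      _ = Real.exp ((3 * k : ℕ) * x) := (Real.exp_nat_mul x (3 * k)).symm
      _ ≤ Real.exp (lam * k / 2) := by
        apply Real.exp_le_exp.2
        push_cast
        have : (0 : ℝ) ≤ k := Nat.cast_nonneg _
        nlinarith
  have h3 : (2 / x) ^ s ≤ Real.exp (lam * k / 2) := by
    have e1 : (2 / x) ^ s = Real.exp (s * L) := by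
      rw [Real.exp_nat_mul, hL, Real.exp_log (by positivity)]
    rw [e1]
    apply Real.exp_le_exp.2
    have hk0 : (0 : ℝ) ≤ k := Nat.cast_nonneg _
    calc (s : ℝ) * L ≤ (2 * c * k) * L := mul_le_mul_of_nonneg_right hs hL0.le
      _ ≤ (2 * (lam / (4 * L)) * k) * L := by
        apply mul_le_mul_of_nonneg_right _ hL0.le
        apply mul_le_mul_of_nonneg_right _ hk0
        linarith
      _ = lam * k / 2 := by field_simp; ring
  have h4 : ((3 * k).choose s : ℝ) * 2 ^ s = (((3 * k).choose s : ℝ) * x ^ s) * (2 / x) ^ s := by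
    rw [div_pow]; field_simp
  rw [h4]
  calc (((3 * k).choose s : ℝ) * x ^ s) * (2 / x) ^ s
      ≤ Real.exp (lam * k / 2) * Real.exp (lam * k / 2) :=
        mul_le_mul (h1.trans h2) h3 (by positivity) (by positivity)
    _ = Real.exp (lam * k) := by rw [← Real.exp_add]; congr 1; ring

/-- the expansion event -/
theorem cnt_exp (lam c : ℝ) (hlam : lam = Real.log (1 / 0.51) / 4000) (hc0 : 0 < c) (hc1 : c ≤ 1)
    (hc : ∀ k s : ℕ, (s : ℝ) ≤ 2 * c * k → ((3 * k).choose s : ℝ) * 2 ^ s ≤ Real.exp (lam * k))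
    (hc2 : c ≤ 0.9) (k : ℕ) (hk : 0 < k) :
    (cnt (2 * k) (3 * k) (fun w => ∃ U : Finset (Fin (2 * k)), (k : ℝ) / 1000 ≤ U.card ∧
      (U.card : ℝ) ≤ 1.02 * k ∧ ((spl (pre w U)).card : ℝ) < c * U.card) : ℝ) ≤
    (2 * k + 1) * (3 * k + 1) * (3 * k + 1) * ((6 * k + 1) * Real.exp (-(lam * k))) *
      (Om (2 * k) (3 * k)).card := by
  classical
  have hk' : (0 : ℝ) < k := by exact_mod_cast hk
  have hlog : 0 < Real.log (1 / 0.51) := Real.log_pos (by norm_num)
  have hlam0 : 0 < lam := by rw [hlam]; positivity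
  let I : Finset (ℕ × ℕ × ℕ) := (range (2 * k + 1) ×ˢ range (3 * k + 1) ×ˢ range (3 * k + 1)).filter
    fun x => (k : ℝ) / 1000 ≤ x.1 ∧ (x.1 : ℝ) ≤ 1.02 * k ∧ (x.2.2 : ℝ) < c * x.1 ∧
      2 * x.2.1 + x.2.2 = 3 * x.1
  have h1 : cnt (2 * k) (3 * k) (fun w => ∃ U : Finset (Fin (2 * k)), (k : ℝ) / 1000 ≤ U.card ∧
      (U.card : ℝ) ≤ 1.02 * k ∧ ((spl (pre w U)).card : ℝ) < c * U.card) ≤
      ∑ x ∈ I, ∑ U ∈ powersetCard x.1 (univ : Finset (Fin (2 * k))),
        cnt (2 * k) (3 * k) (fun w => (full (pre w U)).card = x.2.1 ∧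
          (spl (pre w U)).card = x.2.2) := by
    have h2 : cnt (2 * k) (3 * k) (fun w => ∃ U : Finset (Fin (2 * k)), (k : ℝ) / 1000 ≤ U.card ∧
      (U.card : ℝ) ≤ 1.02 * k ∧ ((spl (pre w U)).card : ℝ) < c * U.card) ≤
      cnt (2 * k) (3 * k) (fun w => ∃ x ∈ I, ∃ U ∈ powersetCard x.1 (univ : Finset (Fin (2 * k))),
        ((full (pre w U)).card = x.2.1 ∧ (spl (pre w U)).card = x.2.2)) := by
      refine cnt_mono ?_
      rintro w hw ⟨U, hU1, hU2, hU3⟩
      have h3 : (pre w U).card = 3 * U.card := Om_card_pre w hw U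
      have h4 := card_eq_full_spl (pre w U)
      refine ⟨(U.card, (full (pre w U)).card, (spl (pre w U)).card), ?_, U, ?_, rfl, rfl⟩
      · simp only [I, mem_filter, mem_product, mem_range]
        have h5 : U.card ≤ 2 * k := by
          have := card_le_univ U
          rwa [Fintype.card_fin] at this
        have h6 : (full (pre w U)).card ≤ 3 * k := by
          have := card_le_univ (full (pre w U))
          rwa [Fintype.card_fin] at this
        have h7 : (spl (pre w U)).card ≤ 3 * k := by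
          have := card_le_univ (spl (pre w U))
          rwa [Fintype.card_fin] at this
        exact ⟨⟨by omega, by omega, by omega⟩, hU1, hU2, hU3, by omega⟩
      · rw [mem_powersetCard]
        exact ⟨subset_univ _, rfl⟩
    refine h2.trans ((cnt_exists_le _ _).trans ?_)
    exact sum_le_sum fun x _ => cnt_exists_le _ _
  have h8 : ∀ x ∈ I, (∑ U ∈ powersetCard x.1 (univ : Finset (Fin (2 * k))),
        (cnt (2 * k) (3 * k) (fun w => (full (pre w U)).card = x.2.1 ∧
          (spl (pre w U)).card = x.2.2) : ℝ)) ≤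
      ((6 * k + 1) * Real.exp (-(lam * k))) * (Om (2 * k) (3 * k)).card := by
    rintro ⟨u, f, s⟩ hx
    simp only [I, mem_filter, mem_product, mem_range] at hx
    obtain ⟨⟨hu, hf, hs⟩, hu1, hu2, hs1, hfs⟩ := hx
    simp only
    have hu0 : 0 < u := by
      have : (0 : ℝ) < u := lt_of_lt_of_le (by positivity) hu1
      exact_mod_cast this
    have hus : u + s ≤ 2 * k := by
      have : (u : ℝ) + s ≤ 2 * k := by
        have : c * u ≤ 0.9 * (1.02 * k) := mul_le_mul hc2 hu2 (by positivity) (by norm_num)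
        linarith
      exact_mod_cast this
    have h9 := sum_cnt_fs k u f s hu0 (by omega) hfs hus
    refine h9.trans ?_
    apply mul_le_mul_of_nonneg_right _ (Nat.cast_nonneg _)
    rw [mul_assoc]
    apply mul_le_mul_of_nonneg_left _ (by positivity)
    have h10 : ((3 * k).choose s : ℝ) * 2 ^ s ≤ Real.exp (lam * k) := by
      apply hc
      have : c * u ≤ c * (2 * k) := by
        apply mul_le_mul_of_nonneg_left _ hc0.le
        linarith
      linarith
    have h11 : ((u : ℝ) / (2 * k)) ^ (2 * u - f) ≤ Real.exp (-(2 * lam * k)) := by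
      have e1 : (u : ℝ) / (2 * k) ≤ 0.51 := by
        rw [div_le_iff₀ (by positivity)]; linarith
      have e2 : (0.51 : ℝ) = Real.exp (-(4000 * lam)) := by
        rw [hlam, show -(4000 * (Real.log (1 / 0.51) / 4000)) = -Real.log (1 / 0.51) by ring,
          ← Real.log_inv, Real.exp_log (by norm_num)]
        norm_num
      have e3 : (k : ℝ) / 2000 ≤ ((2 * u - f : ℕ) : ℝ) := by
        have e4 : 2 * (2 * u - f) = u + s := by omega
        have e5 : 2 * ((2 * u - f : ℕ) : ℝ) = u + s := by exact_mod_cast e4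
        have e6 : (0 : ℝ) ≤ s := Nat.cast_nonneg _
        linarith
      calc ((u : ℝ) / (2 * k)) ^ (2 * u - f) ≤ 0.51 ^ (2 * u - f) :=
            pow_le_pow_left₀ (by positivity) e1 _
        _ = Real.exp (((2 * u - f : ℕ) : ℝ) * -(4000 * lam)) := by
            rw [Real.exp_nat_mul, ← e2]
        _ ≤ Real.exp (-(2 * lam * k)) := by
            apply Real.exp_le_exp.2
            nlinarith
    calc ((u : ℝ) / (2 * k)) ^ (2 * u - f) * (((3 * k).choose s : ℝ) * 2 ^ s)
        ≤ Real.exp (-(2 * lam * k)) * Real.exp (lam * k) :=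
          mul_le_mul h11 h10 (by positivity) (by positivity)
      _ = Real.exp (-(lam * k)) := by rw [← Real.exp_add]; congr 1; ring
  have h12 : (I.card : ℝ) ≤ (2 * k + 1) * (3 * k + 1) * (3 * k + 1) := by
    have h13 : I.card ≤ (2 * k + 1) * ((3 * k + 1) * (3 * k + 1)) := by
      refine (card_filter_le _ _).trans ?_
      rw [card_product, card_product, card_range, card_range]
    have h14 : (I.card : ℝ) ≤ (2 * k + 1) * ((3 * k + 1) * (3 * k + 1)) := by exact_mod_cast h13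
    linarith
  have h15 : (cnt (2 * k) (3 * k) (fun w => ∃ U : Finset (Fin (2 * k)), (k : ℝ) / 1000 ≤ U.card ∧
      (U.card : ℝ) ≤ 1.02 * k ∧ ((spl (pre w U)).card : ℝ) < c * U.card) : ℝ) ≤
      ∑ x ∈ I, ∑ U ∈ powersetCard x.1 (univ : Finset (Fin (2 * k))),
        (cnt (2 * k) (3 * k) (fun w => (full (pre w U)).card = x.2.1 ∧
          (spl (pre w U)).card = x.2.2) : ℝ) := by exact_mod_cast h1
  refine h15.trans ((sum_le_sum h8).trans ?_)
  rw [sum_const, nsmul_eq_mul, ← mul_assoc]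
  apply mul_le_mul_of_nonneg_right _ (Nat.cast_nonneg _)
  exact mul_le_mul_of_nonneg_right h12 (by positivity)


/-- the short cycles event -/
theorem cnt_cyc_all (K m k : ℕ) (h : 2 * (m * K) ≤ 3 * k) :
    (cnt (2 * k) (3 * k) (fun w => ∃ j, j + 3 ≤ K ∧ ∃ φ : (Fin m × Fin (j + 3) → Fin (3 * k)) ×
      (Fin m × Fin (j + 3) → Bool), Function.Injective φ.1 ∧ ValidC m j φ w) : ℝ) ≤
    (K * ((4 : ℝ) ^ K) ^ m / m.factorial) * (Om (2 * k) (3 * k)).card := by
  classical
  have h1 : cnt (2 * k) (3 * k) (fun w => ∃ j, j + 3 ≤ K ∧ ∃ φ : (Fin m × Fin (j + 3) →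
      Fin (3 * k)) × (Fin m × Fin (j + 3) → Bool), Function.Injective φ.1 ∧ ValidC m j φ w) ≤
      ∑ j ∈ (range K).filter (fun j => j + 3 ≤ K), cnt (2 * k) (3 * k) (fun w =>
        ∃ φ : (Fin m × Fin (j + 3) → Fin (3 * k)) ×
        (Fin m × Fin (j + 3) → Bool), Function.Injective φ.1 ∧ ValidC m j φ w) := by
    refine le_trans (cnt_mono ?_) (cnt_exists_le ((range K).filter (fun j => j + 3 ≤ K))
      (fun j w => ∃ φ : (Fin m × Fin (j + 3) → Fin (3 * k)) ×
        (Fin m × Fin (j + 3) → Bool), Function.Injective φ.1 ∧ ValidC m j φ w))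
    rintro w _ ⟨j, hj, hφ⟩
    exact ⟨j, by rw [mem_filter, mem_range]; omega, hφ⟩
  have h2 : ∀ j ∈ (range K).filter (fun j => j + 3 ≤ K),
      m.factorial * cnt (2 * k) (3 * k) (fun w =>
        ∃ φ : (Fin m × Fin (j + 3) → Fin (3 * k)) ×
        (Fin m × Fin (j + 3) → Bool), Function.Injective φ.1 ∧ ValidC m j φ w) ≤
      (4 ^ K) ^ m * (Om (2 * k) (3 * k)).card := by
    intro j hj
    rw [mem_filter] at hj
    have h3 : m * (j + 3) ≤ m * K := Nat.mul_le_mul_left _ hj.2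
    refine (cnt_cycles m j (by omega)).trans ?_
    apply Nat.mul_le_mul_right
    rw [← pow_mul]
    apply Nat.pow_le_pow_right (by norm_num)
    rw [mul_comm K m]
    exact h3
  have h4 : m.factorial * cnt (2 * k) (3 * k) (fun w => ∃ j, j + 3 ≤ K ∧
      ∃ φ : (Fin m × Fin (j + 3) → Fin (3 * k)) × (Fin m × Fin (j + 3) → Bool),
      Function.Injective φ.1 ∧ ValidC m j φ w) ≤ K * ((4 ^ K) ^ m * (Om (2 * k) (3 * k)).card) := by
    refine (Nat.mul_le_mul_left _ h1).trans ?_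
    rw [mul_sum]
    refine (sum_le_sum h2).trans ?_
    rw [sum_const, smul_eq_mul]
    apply Nat.mul_le_mul_right
    refine (card_filter_le _ _).trans ?_
    rw [card_range]
  have h5 : (m.factorial : ℝ) * (cnt (2 * k) (3 * k) (fun w => ∃ j, j + 3 ≤ K ∧
      ∃ φ : (Fin m × Fin (j + 3) → Fin (3 * k)) × (Fin m × Fin (j + 3) → Bool),
      Function.Injective φ.1 ∧ ValidC m j φ w) : ℝ) ≤
      K * (((4 : ℝ) ^ K) ^ m * (Om (2 * k) (3 * k)).card) := by exact_mod_cast h4
  have h6 : (0 : ℝ) < m.factorial := by exact_mod_cast Nat.factorial_pos m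
  rw [div_mul_eq_mul_div, le_div_iff₀ h6]
  linarith

/-- the three bad events imply the failure is rare; deterministic step -/
theorem main_det (c : ℝ) (hc0 : 0 < c) (hc1 : c ≤ 1) (K m k k' : ℕ) (hm : 0 < m)
    (hK : 6 / c ≤ K) (hk : 1000 ≤ k) (hk' : (k' : ℝ) ≤ (1 + c / 6000) * k / 2)
    (hmK : 4 / c * (K * m * (3 + c / 2 * K)) ≤ k / 500)
    (G : SimpleGraph (Fin (2 * k))) (hG : Cubic G) (R B : SimpleGraph (Fin (2 * k)))
    (hR : R ≤ G) (hB : B ≤ G) (hRB : ∀ a b, G.Adj a b → R.Adj a b ∨ B.Adj a b)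
    (hRk : ∀ M, IsMat R M → M.card ≤ k') (hBk : ∀ M, IsMat B M → M.card ≤ k') :
    (∃ U : Finset (Fin (2 * k)), (k : ℝ) / 1000 ≤ U.card ∧ (U.card : ℝ) ≤ 1.02 * k ∧
      (bd G U : ℝ) < c * U.card) ∨
    (∃ j, j + 3 ≤ K ∧ ∃ x : Fin m × Fin (j + 3) → Fin (2 * k), Function.Injective x ∧
      ∀ a b, G.Adj (x (a, b)) (x (a, b + 1))) ∨
    (∃ W ∈ powersetCard (k - k / 60) (univ : Finset (Fin (2 * k))),
      ∀ a ∈ W, ∀ b ∈ W, ¬ G.Adj a b) := by
  by_contra hcon
  push Not at hcon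
  obtain ⟨h1, h2, h3⟩ := hcon
  have hkr : (1000 : ℝ) ≤ k := by exact_mod_cast hk
  have hk'' : (k' : ℝ) ≤ k / 2 + k / 12000 := by
    refine hk'.trans ?_
    have : c / 6000 * k ≤ 1 / 6000 * k := by
      apply mul_le_mul_of_nonneg_right _ (by linarith)
      linarith
    linarith
  obtain ⟨W, hW1, hW2⟩ := det G R B hG hR hB hRB k' hRk hBk c (k / 1000) (1.02 * k) K m hm hc0 hc1
    hK (by linarith) (by linarith) (by linarith) h1 (by
      intro j hj hx
      obtain ⟨x, hx1, hx2⟩ := hx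
      obtain ⟨a, b, hab⟩ := h2 j hj x hx1
      exact hab (hx2 a b))
  rw [Fintype.card_fin] at hW2
  push_cast at hW2
  have h4 : 2 / c * ((12 * k' - 3 * (2 * k)) + 2 * (K * m * (3 + c / 2 * K) + c * (k / 1000))) ≤
      k / 500 + k / 500 + k / 250 := by
    have e1 : 2 / c * ((12 * k' - 3 * (2 * k)) + 2 * (K * m * (3 + c / 2 * K) + c * (k / 1000))) =
        2 / c * (12 * k' - 6 * k) + 4 / c * (K * m * (3 + c / 2 * K)) + k / 250 := by
      field_simp
      ring
    have e2 : 2 / c * (12 * k' - 6 * k) ≤ k / 500 := by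
      have e3 : (12 : ℝ) * k' - 6 * k ≤ c * k / 1000 := by linarith
      calc 2 / c * (12 * k' - 6 * k) ≤ 2 / c * (c * k / 1000) :=
            mul_le_mul_of_nonneg_left e3 (by positivity)
        _ = k / 500 := by field_simp; ring
    rw [e1]
    linarith
  have h5 : (k : ℝ) - k / 100 ≤ W.card := by linarith
  have h6 : k - k / 60 ≤ W.card := by
    have e1 : ((k / 60 : ℕ) : ℝ) ≥ k / 60 - 1 := by
      have e2 : k < 60 * (k / 60) + 60 := by omega
      have e3 : (k : ℝ) < 60 * ((k / 60 : ℕ) : ℝ) + 60 := by exact_mod_cast e2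
      linarith
    have e4 : ((k - k / 60 : ℕ) : ℝ) ≤ W.card := by
      rw [Nat.cast_sub (by omega)]
      linarith
    exact_mod_cast e4
  obtain ⟨W', hW', hW'c⟩ := exists_subset_card_eq h6
  obtain ⟨a, ha, b, hb, hab⟩ := h3 W' (mem_powersetCard.2 ⟨subset_univ _, hW'c⟩)
  exact hW1 a (hW' ha) b (hW' hb) hab

/-- bound for the number of exceptional cubic graphs -/
theorem exc_bound (lam c : ℝ) (hlam : lam = Real.log (1 / 0.51) / 4000) (hc0 : 0 < c)
    (hc2 : c ≤ 0.9)
    (hc : ∀ k s : ℕ, (s : ℝ) ≤ 2 * c * k → ((3 * k).choose s : ℝ) * 2 ^ s ≤ Real.exp (lam * k))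
    (K m k k' : ℕ) (hm : 0 < m) (hK : 6 / c ≤ K) (hk : 1000 ≤ k)
    (hk' : (k' : ℝ) ≤ (1 + c / 6000) * k / 2)
    (hmK : 4 / c * (K * m * (3 + c / 2 * K)) ≤ k / 500) (hmk : 2 * (m * K) ≤ 3 * k)
    (Q : SimpleGraph (Fin (2 * k)) → Prop)
    (hQ : ∀ G, Cubic G → Q G → ∃ R B : SimpleGraph (Fin (2 * k)), R ≤ G ∧ B ≤ G ∧
      (∀ a b, G.Adj a b → R.Adj a b ∨ B.Adj a b) ∧ (∀ M, IsMat R M → M.card ≤ k') ∧
      (∀ M, IsMat B M → M.card ≤ k')) :
    (cub (2 * k) Q : ℝ) ≤ cub (2 * k) (fun _ => True) * ((2 * (1 + (6 * k) ^ 2) ^ 7) *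
      ((2 * k + 1) * (3 * k + 1) * (3 * k + 1) * ((6 * k + 1) * Real.exp (-(lam * k))) +
      (K * ((4 : ℝ) ^ K) ^ m / m.factorial + (6 * k + 1) * 0.7 ^ k))) := by
  classical
  let E1 : (Pos (3 * k) → Fin (2 * k)) → Prop := fun w => ∃ U : Finset (Fin (2 * k)),
      (k : ℝ) / 1000 ≤ U.card ∧ (U.card : ℝ) ≤ 1.02 * k ∧
      ((spl (pre w U)).card : ℝ) < c * U.card
  let E2 : (Pos (3 * k) → Fin (2 * k)) → Prop := fun w => ∃ j, j + 3 ≤ K ∧
      ∃ φ : (Fin m × Fin (j + 3) → Fin (3 * k)) × (Fin m × Fin (j + 3) → Bool),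
      Function.Injective φ.1 ∧ ValidC m j φ w
  let E3 : (Pos (3 * k) → Fin (2 * k)) → Prop := fun w =>
      ∃ W ∈ powersetCard (k - k / 60) (univ : Finset (Fin (2 * k))), (full (pre w W)).card = 0
  have h1 := ratio k (by omega) Q (fun w => E1 w ∨ (E2 w ∨ E3 w)) (by
    intro w hw hs hq
    have hcub := cubic_grW w hw hs
    obtain ⟨R, B, hR, hB, hRB, hRk, hBk⟩ := hQ _ hcub hq
    rcases main_det c hc0 (by linarith) K m k k' hm hK hk hk' hmK (grW w) hcub R B hR hB hRB hRk hBk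
      with ⟨U, hU1, hU2, hU3⟩ | ⟨j, hj, hx⟩ | ⟨W, hW1, hW2⟩
    · left
      refine ⟨U, hU1, hU2, lt_of_le_of_lt ?_ hU3⟩
      exact_mod_cast spl_le_bd w hs U
    · right; left
      exact ⟨j, hj, valid_of_cycles w m j hx⟩
    · right; right
      exact ⟨W, hW1, full_empty w hs W hW2⟩)
  have h2 : cnt (2 * k) (3 * k) (fun w => E1 w ∨ (E2 w ∨ E3 w)) ≤
      cnt (2 * k) (3 * k) E1 + (cnt (2 * k) (3 * k) E2 + cnt (2 * k) (3 * k) E3) :=
    (cnt_or_le _ _).trans (Nat.add_le_add_left (cnt_or_le _ _) _)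
  have h3 := cnt_exp lam c hlam hc0 (by linarith) hc hc2 k (by omega)
  have h4 := cnt_cyc_all K m k hmk
  have h5 : (cnt (2 * k) (3 * k) E3 : ℝ) ≤ (6 * k + 1) * 0.7 ^ k * (Om (2 * k) (3 * k)).card := by
    refine le_trans ?_ (sum_cnt_ind k (k / 60) (by omega) (by omega))
    have h6 := cnt_exists_le (n := 2 * k) (M := 3 * k)
      (powersetCard (k - k / 60) (univ : Finset (Fin (2 * k))))
      (fun W w => (full (pre w W)).card = 0)
    exact_mod_cast h6
  have hO : (0 : ℝ) < (Om (2 * k) (3 * k)).card := by exact_mod_cast Om_pos k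
  have h7 : (cub (2 * k) Q : ℝ) * (Om (2 * k) (3 * k)).card ≤
      cub (2 * k) (fun _ => True) * (2 * (1 + (6 * k) ^ 2) ^ 7) *
        (cnt (2 * k) (3 * k) E1 + (cnt (2 * k) (3 * k) E2 + cnt (2 * k) (3 * k) E3)) := by
    have h8 := h1.trans (Nat.mul_le_mul_left _ h2)
    exact_mod_cast h8
  have h9 : ((cnt (2 * k) (3 * k) E1 : ℝ) + (cnt (2 * k) (3 * k) E2 + cnt (2 * k) (3 * k) E3)) ≤
      ((2 * k + 1) * (3 * k + 1) * (3 * k + 1) * ((6 * k + 1) * Real.exp (-(lam * k))) +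
      (K * ((4 : ℝ) ^ K) ^ m / m.factorial + (6 * k + 1) * 0.7 ^ k)) *
      (Om (2 * k) (3 * k)).card := by
    have h3' : (cnt (2 * k) (3 * k) E1 : ℝ) ≤ (2 * k + 1) * (3 * k + 1) * (3 * k + 1) *
      ((6 * k + 1) * Real.exp (-(lam * k))) * (Om (2 * k) (3 * k)).card := h3
    have h4' : (cnt (2 * k) (3 * k) E2 : ℝ) ≤ (K * ((4 : ℝ) ^ K) ^ m / m.factorial) *
      (Om (2 * k) (3 * k)).card := h4
    linarith
  have h10 : (cub (2 * k) Q : ℝ) * (Om (2 * k) (3 * k)).card ≤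
      (cub (2 * k) (fun _ => True) * ((2 * (1 + (6 * k) ^ 2) ^ 7) *
      ((2 * k + 1) * (3 * k + 1) * (3 * k + 1) * ((6 * k + 1) * Real.exp (-(lam * k))) +
      (K * ((4 : ℝ) ^ K) ^ m / m.factorial + (6 * k + 1) * 0.7 ^ k)))) *
      (Om (2 * k) (3 * k)).card := by
    refine h7.trans ?_
    calc _ ≤ (cub (2 * k) (fun _ => True) * (2 * (1 + (6 * k) ^ 2) ^ 7) : ℝ) *
          (((2 * k + 1) * (3 * k + 1) * (3 * k + 1) * ((6 * k + 1) * Real.exp (-(lam * k))) +
          (K * ((4 : ℝ) ^ K) ^ m / m.factorial + (6 * k + 1) * 0.7 ^ k)) *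
          (Om (2 * k) (3 * k)).card) := mul_le_mul_of_nonneg_left h9 (by positivity)
      _ = _ := by ring
  exact le_of_mul_le_mul_right h10 hO

end Pool.Agent.WCL
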