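import Pool.Agent.Lib_MP_76d27f_co.Simple

/-!
# The positions of the letters of a set
-/

set_option autoImplicit false
set_option linter.unusedSectionVars false
set_option linter.unusedVariables false

namespace Pool.Agent.WCL

open Finset

variable {n M : ℕ}

/-- positions of the letters of `U` -/
def pre (w : Pos M → Fin n) (U : Finset (Fin n)) : Finset (Pos M) := univ.filter fun p => w p ∈ U

theorem mem_pre (w : Pos M → Fin n) (U : Finset (Fin n)) (p : Pos M) :
    p ∈ pre w U ↔ w p ∈ U := by simp [pre]

theorem cnt_pre_mono (U : Finset (Fin n)) (T T' : Finset (Pos M)) (h : T.card = T'.card) :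
    cnt n M (fun w => pre w U = T) ≤ cnt n M (fun w => pre w U = T') := by
  classical
  obtain ⟨e⟩ : Nonempty ({x // x ∈ T'} ≃ {x // x ∈ T}) := by
    rw [← Fintype.card_eq]
    simp [h]
  let σ : Equiv.Perm (Pos M) := e.extendSubtype
  refine cnt_perm_le σ _ _ fun w hw => ?_
  ext p
  rw [mem_pre, Function.comp_apply, ← mem_pre, hw]
  constructor
  · intro hp
    by_contra hp'
    exact e.extendSubtype_not_mem p hp' hp
  · intro hp
    exact e.extendSubtype_mem p hp

theorem cnt_pre_mem (U : Finset (Fin n)) (𝒯 : Finset (Finset (Pos M)))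
    (h𝒯 : ∀ T ∈ 𝒯, T.card = 3 * U.card) :
    cnt n M (fun w => pre w U ∈ 𝒯) * (2 * M).choose (3 * U.card) ≤ 𝒯.card * (Om n M).card := by
  classical
  have h1 : cnt n M (fun w => pre w U ∈ 𝒯) ≤ ∑ T ∈ 𝒯, cnt n M (fun w => pre w U = T) := by
    refine le_trans (cnt_mono fun w _ hw => ?_) (cnt_exists_le 𝒯 (fun T w => pre w U = T))
    exact ⟨_, hw, rfl⟩
  have h2 : ∀ T ∈ 𝒯, cnt n M (fun w => pre w U = T) * (2 * M).choose (3 * U.card) ≤
      (Om n M).card := by
    intro T hT
    have h3 : (powersetCard (3 * U.card) (univ : Finset (Pos M))).card =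
        (2 * M).choose (3 * U.card) := by
      rw [card_powersetCard, card_univ, card_Pos]
    rw [← h3, mul_comm, ← smul_eq_mul, ← sum_const]
    have h4 : ∑ T' ∈ powersetCard (3 * U.card) (univ : Finset (Pos M)),
        cnt n M (fun w => pre w U = T) ≤
        ∑ T' ∈ powersetCard (3 * U.card) (univ : Finset (Pos M)),
        cnt n M (fun w => pre w U = T') := by
      refine sum_le_sum fun T' hT' => ?_
      rw [mem_powersetCard] at hT'
      exact cnt_pre_mono U T T' (by rw [h𝒯 T hT, hT'.2])
    refine h4.trans ?_
    have h5 : (Om n M).card = ∑ T' ∈ powersetCard (3 * U.card) (univ : Finset (Pos M)),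
        ((Om n M).filter fun w => pre w U = T').card := by
      apply Finset.card_eq_sum_card_fiberwise
      intro w hw
      rw [mem_coe] at hw
      rw [mem_coe, mem_powersetCard]
      exact ⟨subset_univ _, Om_card_pre w hw U⟩
    rw [h5]
    refine sum_le_sum fun T' _ => ?_
    unfold cnt
    refine le_of_eq ?_
    congr 1
    ext w
    simp only [mem_filter]
  calc cnt n M (fun w => pre w U ∈ 𝒯) * (2 * M).choose (3 * U.card)
      ≤ (∑ T ∈ 𝒯, cnt n M (fun w => pre w U = T)) * (2 * M).choose (3 * U.card) :=
        Nat.mul_le_mul_right _ h1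
    _ = ∑ T ∈ 𝒯, cnt n M (fun w => pre w U = T) * (2 * M).choose (3 * U.card) := by rw [sum_mul]
    _ ≤ ∑ T ∈ 𝒯, (Om n M).card := sum_le_sum h2
    _ = 𝒯.card * (Om n M).card := by rw [sum_const, smul_eq_mul]

/-- indices with both positions in `T` -/
def full (T : Finset (Pos M)) : Finset (Fin M) := univ.filter fun i => (i, false) ∈ T ∧ (i, true) ∈ T

/-- indices with exactly one position in `T` -/
def spl (T : Finset (Pos M)) : Finset (Fin M) :=
  univ.filter fun i => ¬ ((i, false) ∈ T ↔ (i, true) ∈ T)

/-- indices with exactly one position in `T`, the first -/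
def spl0 (T : Finset (Pos M)) : Finset (Fin M) :=
  univ.filter fun i => (i, false) ∈ T ∧ (i, true) ∉ T

theorem card_eq_full_spl (T : Finset (Pos M)) : T.card = 2 * (full T).card + (spl T).card := by
  classical
  have h1 : T.card = ∑ i : Fin M, (T.filter fun p => p.1 = i).card :=
    Finset.card_eq_sum_card_fiberwise (fun _ _ => mem_univ _)
  rw [h1, full, spl, card_filter, card_filter, mul_sum, ← sum_add_distrib]
  refine sum_congr rfl fun i _ => ?_
  have h2 : (T.filter fun p => p.1 = i) =
      (if (i, false) ∈ T then {(i, false)} else ∅) ∪ (if (i, true) ∈ T then {(i, true)} else ∅) := by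
    ext ⟨a, b⟩
    simp only [mem_filter, mem_union]
    constructor
    · rintro ⟨h3, rfl⟩
      cases b
      · left; rw [if_pos h3]; simp
      · right; rw [if_pos h3]; simp
    · intro h3
      rcases h3 with h3 | h3
      · split_ifs at h3 with h4
        · rw [mem_singleton, Prod.mk.injEq] at h3
          obtain ⟨rfl, rfl⟩ := h3
          exact ⟨h4, rfl⟩
        · simp at h3
      · split_ifs at h3 with h4
        · rw [mem_singleton, Prod.mk.injEq] at h3
          obtain ⟨rfl, rfl⟩ := h3
          exact ⟨h4, rfl⟩
        · simp at h3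
  rw [h2]
  by_cases ha : (i, false) ∈ T <;> by_cases hb : (i, true) ∈ T
  · simp only [ha, hb, if_true, and_self, iff_self, not_true_eq_false, if_false]
    rw [card_union_of_disjoint (by simp)]
    simp
  · simp [ha, hb]
  · simp [ha, hb]
  · simp [ha, hb]

/-- the number of position sets with prescribed numbers of full and split pairs -/
theorem card_T_le (f s : ℕ) :
    (univ.filter fun T : Finset (Pos M) => (full T).card = f ∧ (spl T).card = s).card ≤
      M.choose f * (M.choose s * 2 ^ s) := by
  classical
  have h1 : (univ.filter fun T : Finset (Pos M) => (full T).card = f ∧ (spl T).card = s).card ≤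
      ((powersetCard f (univ : Finset (Fin M))) ×ˢ ((powersetCard s (univ : Finset (Fin M))).sigma
        fun X => X.powerset)).card := by
    refine card_le_card_of_injOn (fun T => (full T, ⟨spl T, spl0 T⟩)) ?_ ?_
    · intro T hT
      simp only [coe_filter, mem_univ, true_and, Set.mem_ofPred_eq] at hT
      simp only [coe_product, Set.mem_prod, mem_coe, mem_powersetCard, subset_univ, true_and,
        mem_sigma, mem_powerset]
      refine ⟨hT.1, hT.2, ?_⟩
      intro i hi
      simp only [spl0, spl, mem_filter, mem_univ, true_and] at hi ⊢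
      exact fun h => hi.2 (h.1 hi.1)
    · intro T _ T' _ hTT
      simp only [Prod.mk.injEq, Sigma.mk.injEq] at hTT
      obtain ⟨h2, h3, h4⟩ := hTT
      have h4' : spl0 T = spl0 T' := by
        exact eq_of_heq h4
      ext ⟨i, b⟩
      have e2 := Finset.ext_iff.1 h2 i
      have e3 := Finset.ext_iff.1 h3 i
      have e4 := Finset.ext_iff.1 h4' i
      simp only [full, spl, spl0, mem_filter, mem_univ, true_and] at e2 e3 e4
      cases b
      · constructor
        · intro h
          by_cases h5 : (i, true) ∈ T
          · exact (e2.1 ⟨h, h5⟩).1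
          · exact (e4.1 ⟨h, h5⟩).1
        · intro h
          by_cases h5 : (i, true) ∈ T'
          · exact (e2.2 ⟨h, h5⟩).1
          · exact (e4.2 ⟨h, h5⟩).1
      · constructor
        · intro h
          by_cases h5 : (i, false) ∈ T
          · exact (e2.1 ⟨h5, h⟩).2
          · by_contra h6
            have h7 := e3.1 (fun h8 => h5 (h8.2 h))
            by_cases h9 : (i, false) ∈ T'
            · exact h5 (e4.2 ⟨h9, h6⟩).1
            · exact h7 ⟨fun h => absurd h h9, fun h => absurd h h6⟩
        · intro h
          by_cases h5 : (i, false) ∈ T'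
          · exact (e2.2 ⟨h5, h⟩).2
          · by_contra h6
            have h7 := e3.2 (fun h8 => h5 (h8.2 h))
            by_cases h9 : (i, false) ∈ T
            · exact h5 (e4.1 ⟨h9, h6⟩).1
            · exact h7 ⟨fun h => absurd h h9, fun h => absurd h h6⟩
  refine h1.trans (le_of_eq ?_)
  rw [card_product, card_powersetCard, card_sigma, card_univ, Fintype.card_fin]
  congr 1
  have h5 : ∀ X ∈ powersetCard s (univ : Finset (Fin M)), (X.powerset).card = 2 ^ s := by
    intro X hX
    rw [mem_powersetCard] at hX
    rw [card_powerset, hX.2]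
  rw [sum_congr rfl h5, sum_const, card_powersetCard, card_univ, Fintype.card_fin, smul_eq_mul]

/-- union bound for a set of letters with given numbers of full and split pairs -/
theorem cnt_full_spl (U : Finset (Fin n)) (f s : ℕ) (hfs : 2 * f + s = 3 * U.card) :
    cnt n M (fun w => (full (pre w U)).card = f ∧ (spl (pre w U)).card = s) *
      (2 * M).choose (3 * U.card) ≤ M.choose f * (M.choose s * 2 ^ s) * (Om n M).card := by
  classical
  have h1 := cnt_pre_mem (n := n) U
    (univ.filter fun T : Finset (Pos M) => (full T).card = f ∧ (spl T).card = s)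
    (by
      intro T hT
      rw [mem_filter] at hT
      rw [card_eq_full_spl, hT.2.1, hT.2.2, hfs])
  have h2 : cnt n M (fun w => (full (pre w U)).card = f ∧ (spl (pre w U)).card = s) ≤
      cnt n M (fun w => pre w U ∈ (univ.filter fun T : Finset (Pos M) =>
        (full T).card = f ∧ (spl T).card = s)) := by
    refine cnt_mono fun w _ h => ?_
    rw [mem_filter]
    exact ⟨mem_univ _, h⟩
  calc _ ≤ _ := Nat.mul_le_mul_right _ h2
    _ ≤ _ := h1
    _ ≤ _ := Nat.mul_le_mul_right _ (card_T_le f s)

end Pool.Agent.WCL
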