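import Pool.Agent.Lib_MP_76d27f_co.Det
import Pool.Agent.Lib_MP_76d27f_co.Cycles
import Pool.Agent.Lib_MP_76d27f_co.Splits

/-!
# From words to cubic graphs
-/

set_option autoImplicit false
set_option linter.unusedSectionVars false
set_option linter.unusedVariables false

namespace Pool.Agent.WCL

open Finset

variable {n M : ℕ}

/-- the graph of a word -/
def grW (w : Pos M → Fin n) : SimpleGraph (Fin n) where
  Adj x y := x ≠ y ∧ ∃ i, ed w i = s(x, y)
  symm := ⟨fun x y h => ⟨h.1.symm, by
    obtain ⟨i, hi⟩ := h.2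
    exact ⟨i, by rw [hi, Sym2.eq_swap]⟩⟩⟩
  loopless := ⟨fun x h => h.1 rfl⟩

/-- simple words -/
def Simp (w : Pos M → Fin n) : Prop := (badSet w).card = 0

theorem simp_iff (w : Pos M → Fin n) :
    Simp w ↔ (∀ i, w (i, false) ≠ w (i, true)) ∧ Function.Injective (ed w) := by
  rw [Simp, card_eq_zero, Finset.eq_empty_iff_forall_notMem]
  simp only [mem_badSet, BadAt, not_or, not_exists, not_and]
  constructor
  · intro h
    refine ⟨fun i => (h i).1, fun i j hij => ?_⟩
    by_contra hne
    exact (h j).2 i hne hij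
  · rintro ⟨h1, h2⟩ i
    exact ⟨h1 i, fun j hj h => hj (h2 h)⟩

theorem ed_eq (w : Pos M → Fin n) (p : Pos M) : ed w p.1 = s(w p, w (p.1, !p.2)) := by
  obtain ⟨i, b⟩ := p
  cases b
  · rfl
  · rw [ed, Sym2.eq_swap]; rfl

/-- positions of `v` correspond to neighbours of `v` -/
theorem card_letter (w : Pos M → Fin n) (hs : Simp w) (v : Fin n) :
    haveI := Classical.decPred fun y => (grW w).Adj v y
    (univ.filter fun p => w p = v).card = (univ.filter fun y => (grW w).Adj v y).card := by
  classical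
  rw [simp_iff] at hs
  obtain ⟨h1, h2⟩ := hs
  have hl : ∀ p : Pos M, w p ≠ w (p.1, !p.2) := by
    rintro ⟨i, b⟩
    cases b
    · exact h1 i
    · exact (h1 i).symm
  refine card_bij (fun p _ => w (p.1, !p.2)) ?_ ?_ ?_
  · intro p hp
    rw [mem_filter] at hp ⊢
    refine ⟨mem_univ _, ?_, p.1, ?_⟩
    · rw [← hp.2]; exact hl p
    · rw [ed_eq, hp.2]
  · intro p hp p' hp' hpp
    rw [mem_filter] at hp hp'
    have h3 : ed w p.1 = ed w p'.1 := by rw [ed_eq, ed_eq, hpp, hp.2, hp'.2]
    have h4 := h2 h3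
    by_cases h5 : p.2 = p'.2
    · exact Prod.ext h4 h5
    · exfalso
      have h6 : p' = (p.1, !p.2) := by
        refine Prod.ext h4.symm ?_
        cases hb : p.2 <;> cases hb' : p'.2 <;> simp_all
      have h7 := hl p
      rw [← h6, hp.2, hp'.2] at h7
      exact h7 rfl
  · intro y hy
    rw [mem_filter] at hy
    obtain ⟨_, hne, i, hi⟩ := hy
    rw [ed, Sym2.eq_iff] at hi
    rcases hi with ⟨h3, h4⟩ | ⟨h3, h4⟩
    · exact ⟨(i, false), by rw [mem_filter]; exact ⟨mem_univ _, h3⟩, h4⟩
    · exact ⟨(i, true), by rw [mem_filter]; exact ⟨mem_univ _, h4⟩, h3⟩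

theorem cubic_grW (w : Pos M → Fin n) (hw : w ∈ Om n M) (hs : Simp w) : Cubic (grW w) := by
  classical
  intro v
  rw [← card_letter w hs v]
  exact (mem_Om w).1 hw v

theorem spl_le_bd (w : Pos M → Fin n) (hs : Simp w) (U : Finset (Fin n)) :
    (spl (pre w U)).card ≤ bd (grW w) U := by
  classical
  rw [simp_iff] at hs
  obtain ⟨h1, h2⟩ := hs
  have hkey : ∀ i ∈ spl (pre w U), ∃ b : Bool, w (i, b) ∈ U ∧ w (i, !b) ∉ U := by
    intro i hi
    simp only [spl, mem_filter, mem_univ, true_and, mem_pre] at hi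
    by_cases h3 : w (i, false) ∈ U
    · refine ⟨false, h3, fun h4 => hi ⟨fun _ => h4, fun _ => h3⟩⟩
    · refine ⟨true, ?_, h3⟩
      by_contra h4
      exact hi ⟨fun h => absurd h h3, fun h => absurd h h4⟩
  choose! b hb1 hb2 using hkey
  refine card_le_card_of_injOn (fun i => (w (i, b i), w (i, !(b i)))) ?_ ?_
  · intro i hi
    rw [mem_coe] at hi
    rw [mem_coe, mem_filter]
    refine ⟨mem_univ _, hb1 i hi, hb2 i hi, ?_, i, ed_eq w (i, b i)⟩
    intro h
    have h3 := hb1 i hi
    simp only at h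
    rw [h] at h3
    exact hb2 i hi h3
  · intro i _ j _ hij
    simp only [Prod.mk.injEq] at hij
    apply h2
    rw [ed_eq w (i, b i), ed_eq w (j, b j)]
    simp only
    rw [hij.1, hij.2]

theorem full_empty (w : Pos M → Fin n) (hs : Simp w) (W : Finset (Fin n))
    (hW : ∀ a ∈ W, ∀ b ∈ W, ¬ (grW w).Adj a b) : (full (pre w W)).card = 0 := by
  rw [card_eq_zero, Finset.eq_empty_iff_forall_notMem]
  intro i hi
  simp only [full, mem_filter, mem_univ, true_and, mem_pre] at hi
  rw [simp_iff] at hs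
  exact hW _ hi.1 _ hi.2 ⟨hs.1 i, i, rfl⟩

theorem valid_of_cycles (w : Pos M → Fin n) (m j : ℕ)
    (h : ∃ x : Fin m × Fin (j + 3) → Fin n, Function.Injective x ∧
      ∀ a b, (grW w).Adj (x (a, b)) (x (a, b + 1))) :
    ∃ φ : (Fin m × Fin (j + 3) → Fin M) × (Fin m × Fin (j + 3) → Bool),
      Function.Injective φ.1 ∧ ValidC m j φ w := by
  obtain ⟨x, hx, hadj⟩ := h
  have hkey : ∀ y : Fin m × Fin (j + 3), ∃ (i : Fin M) (b : Bool),
      w (i, b) = x (y.1, y.2 + 1) ∧ w (i, !b) = x y := by
    rintro ⟨a, b⟩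
    obtain ⟨_, i, hi⟩ := hadj a b
    rw [ed, Sym2.eq_iff] at hi
    rcases hi with ⟨h3, h4⟩ | ⟨h3, h4⟩
    · exact ⟨i, true, h4, h3⟩
    · exact ⟨i, false, h3, h4⟩
  choose Φ o h1 h2 using hkey
  have hed : ∀ y, ed w (Φ y) = s(x (y.1, y.2 + 1), x y) := by
    intro y
    rw [ed_eq w (Φ y, o y)]
    simp only
    rw [h1, h2]
  refine ⟨(Φ, o), ?_, ?_⟩
  · intro y z hyz
    simp only at hyz
    have h3 := hed y
    rw [hyz, hed z, Sym2.eq_iff] at h3
    rcases h3 with ⟨_, h3⟩ | ⟨h3, h4⟩
    · exact (hx h3).symm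
    · have h5 := hx h3
      have h6 := hx h4
      exfalso
      have h7 : z.2 + 1 = y.2 := congrArg Prod.snd h5
      have h8 : z.2 = y.2 + 1 := congrArg Prod.snd h6
      rw [h8, add_assoc] at h7
      have h9 : (1 + 1 : Fin (j + 3)) = 0 := by simpa using h7
      have h1' : ((1 : Fin (j + 3)) : ℕ) = 1 := by simp
      have h10 := congrArg Fin.val h9
      rw [Fin.val_add, h1'] at h10
      have h11 : (1 + 1) % (j + 3) = 2 := Nat.mod_eq_of_lt (by omega)
      rw [h11] at h10
      simp at h10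
  · intro y
    simp only
    rw [h1, h2]


theorem cnt_eq_card_of (E : (Pos M → Fin n) → Prop) (S : Finset (Pos M → Fin n))
    (h : ∀ w, w ∈ S ↔ w ∈ Om n M ∧ E w) : cnt n M E = S.card := by
  classical
  unfold cnt
  congr 1
  ext w
  rw [mem_filter, h]

/-- words whose edges are prescribed in order -/
theorem card_words_of_edges (e : Fin M → Sym2 (Fin n)) (he : ∀ i, ¬ (e i).IsDiag) :
    (univ.filter fun w : Pos M → Fin n => ∀ i, ed w i = e i).card = 2 ^ M := by
  classical
  have hrep : ∀ i, ∃ xy : Fin n × Fin n, e i = s(xy.1, xy.2) ∧ xy.1 ≠ xy.2 := by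
    intro i
    induction h : e i using Sym2.ind with
    | _ x y =>
      refine ⟨(x, y), rfl, ?_⟩
      have := he i
      rw [h, Sym2.mk_isDiag_iff] at this
      exact this
  choose xy h1 h2 using hrep
  have h3 : (univ : Finset (Fin M → Bool)).card = 2 ^ M := by
    rw [card_univ, Fintype.card_fun, Fintype.card_bool, Fintype.card_fin]
  rw [← h3]
  symm
  refine card_bij (fun o _ => fun p : Pos M => if xor p.2 (o p.1) then (xy p.1).2 else (xy p.1).1)
    ?_ ?_ ?_
  · intro o _
    rw [mem_filter]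
    refine ⟨mem_univ _, fun i => ?_⟩
    rw [ed, h1]
    cases ho : o i
    · simp
    · simp [Sym2.eq_swap]
  · intro o _ o' _ hoo
    ext i
    have h4 := congrFun hoo (i, false)
    simp only at h4
    cases ho : o i <;> cases ho' : o' i
    · rfl
    · rw [ho, ho'] at h4
      simp at h4
      exact absurd h4 (h2 i)
    · rw [ho, ho'] at h4
      simp at h4
      exact absurd h4.symm (h2 i)
    · rfl
  · intro w hw
    rw [mem_filter] at hw
    refine ⟨fun i => decide (w (i, false) = (xy i).2), mem_univ _, ?_⟩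
    ext ⟨i, b⟩
    have h4 := hw.2 i
    rw [ed, h1, Sym2.eq_iff] at h4
    rcases h4 with ⟨h5, h6⟩ | ⟨h5, h6⟩
    · have h7 : ¬ (w (i, false) = (xy i).2) := by
        rw [h5]; exact h2 i
      cases b
      · simp [h5, h2 i]
      · simp [h7, h6]
    · cases b
      · simp [h5]
      · simp [h5, h6]

theorem grW_eq_iff (w : Pos M → Fin n) (G : SimpleGraph (Fin n)) (e : Fin M ≃ G.edgeSet)
    (he : ∀ i, ed w i = (e i : Sym2 (Fin n))) : Simp w ∧ grW w = G := by
  constructor
  · rw [simp_iff]
    constructor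
    · intro i h
      have h1 := (e i).2
      rw [← he i, ed, h] at h1
      exact G.loopless.irrefl _ h1
    · intro i j hij
      rw [he i, he j] at hij
      exact e.injective (Subtype.ext hij)
  · ext x y
    constructor
    · rintro ⟨_, i, hi⟩
      have h1 := (e i).2
      rw [← he i, hi] at h1
      exact h1
    · intro h
      refine ⟨h.ne, e.symm ⟨s(x, y), h⟩, ?_⟩
      rw [he]
      simp

open Classical in
/-- the words of a cubic graph -/
theorem card_fibre (hnM : 2 * M = 3 * n) (G : SimpleGraph (Fin n)) (hG : Cubic G) :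
    cnt n M (fun w => Simp w ∧ grW w = G) = M.factorial * 2 ^ M := by
  have hE : Fintype.card G.edgeSet = M := by
    have h1 := SimpleGraph.two_mul_card_edgeFinset (G := G)
    have h2 := darts_from G hG univ
    simp only [mem_univ, true_and, card_univ, Fintype.card_fin] at h2
    rw [SimpleGraph.edgeFinset_card, h2] at h1
    omega
  have hset : cnt n M (fun w => Simp w ∧ grW w = G) =
      ((univ : Finset (Fin M ≃ G.edgeSet)).biUnion fun e =>
        univ.filter fun w : Pos M → Fin n => ∀ i, ed w i = (e i : Sym2 (Fin n))).card := by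
    apply cnt_eq_card_of
    intro w
    simp only [mem_filter, mem_biUnion, mem_univ, true_and]
    symm
    constructor
    · rintro ⟨hw, hs, rfl⟩
      have hs' := (simp_iff w).1 hs
      let f : Fin M → (grW w).edgeSet := fun i => ⟨ed w i, ⟨hs'.1 i, i, rfl⟩⟩
      have hf : Function.Injective f := fun i j hij => hs'.2 (congrArg Subtype.val hij)
      have hfb : Function.Bijective f := by
        rw [Fintype.bijective_iff_injective_and_card]
        exact ⟨hf, by rw [hE, Fintype.card_fin]⟩
      exact ⟨Equiv.ofBijective f hfb, fun i => rfl⟩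
    · rintro ⟨e, he⟩
      obtain ⟨h1, h2⟩ := grW_eq_iff w G e he
      refine ⟨?_, h1, h2⟩
      rw [mem_Om]
      intro v
      have h3 := card_letter w h1 v
      have h4 := hG v
      rw [h3]
      rw [← h2] at h4
      rw [← h4]
  rw [hset, card_biUnion]
  · have h5 : ∀ e ∈ (univ : Finset (Fin M ≃ G.edgeSet)),
        (univ.filter fun w : Pos M → Fin n => ∀ i, ed w i = (e i : Sym2 (Fin n))).card = 2 ^ M := by
      intro e _
      apply card_words_of_edges
      intro i
      exact G.not_isDiag_of_mem_edgeSet (e i).2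
    rw [sum_congr rfl h5, sum_const, smul_eq_mul, card_univ]
    congr 1
    have e0 : Fin M ≃ G.edgeSet := (Fintype.equivFinOfCardEq hE).symm
    rw [Fintype.card_equiv e0, Fintype.card_fin]
  · intro e _ e' _ hee
    rw [Function.onFun, Finset.disjoint_left]
    intro w hw hw'
    rw [mem_filter] at hw hw'
    apply hee
    ext i
    rw [← hw.2 i, ← hw'.2 i]

end Pool.Agent.WCL
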