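import Pool.Agent.Lib_MP_76d27f_co.Final

/-!
# The limit
-/

set_option autoImplicit false
set_option linter.unusedSectionVars false
set_option linter.unusedVariables false

namespace Pool.Agent.WCL

open Finset Filter Topology

/-- the error function -/
noncomputable def errF (lam dl : ℝ) (K k : ℕ) : ℝ :=
  (2 * (1 + (6 * k) ^ 2) ^ 7) *
      ((2 * k + 1) * (3 * k + 1) * (3 * k + 1) * ((6 * k + 1) * Real.exp (-(lam * k))) +
      (K * ((4 : ℝ) ^ K) ^ (⌈dl * k⌉₊) / (⌈dl * k⌉₊).factorial + (6 * k + 1) * 0.7 ^ k))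

theorem tendsto_errF (lam dl : ℝ) (K : ℕ) (hlam : 0 < lam) (hdl : 0 < dl) :
    Tendsto (fun k : ℕ => errF lam dl K k) atTop (𝓝 0) := by
  set A : ℝ := (4 : ℝ) ^ K with hA
  have hA0 : 0 < A := by positivity
  have hr1 : |Real.exp (-lam)| < 1 := by
    rw [abs_of_pos (Real.exp_pos _), Real.exp_lt_one_iff]
    linarith
  have t1 : Tendsto (fun k : ℕ => (k : ℝ) ^ 18 * (Real.exp (-lam)) ^ k) atTop (𝓝 0) :=
    tendsto_pow_const_mul_const_pow_of_abs_lt_one 18 hr1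
  have t2 : Tendsto (fun k : ℕ => (k : ℝ) ^ 15 * (0.7 : ℝ) ^ k) atTop (𝓝 0) :=
    tendsto_pow_const_mul_const_pow_of_abs_lt_one 15 (by rw [abs_of_pos] <;> norm_num)
  have t3 : Tendsto (fun m : ℕ => ((m : ℝ) ^ 14 * (1 / 2 : ℝ) ^ m) * ((2 * A) ^ m / m.factorial))
      atTop (𝓝 0) := by
    have s1 : Tendsto (fun m : ℕ => (m : ℝ) ^ 14 * (1 / 2 : ℝ) ^ m) atTop (𝓝 0) :=
      tendsto_pow_const_mul_const_pow_of_abs_lt_one 14 (by rw [abs_of_pos] <;> norm_num)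
    have s2 : Tendsto (fun m : ℕ => (2 * A) ^ m / (m.factorial : ℝ)) atTop (𝓝 0) :=
      FloorSemiring.tendsto_pow_div_factorial_atTop (2 * A)
    simpa using s1.mul s2
  have hceil : Tendsto (fun k : ℕ => ⌈dl * (k : ℝ)⌉₊) atTop atTop := by
    apply tendsto_nat_ceil_atTop.comp
    exact Tendsto.const_mul_atTop hdl tendsto_natCast_atTop_atTop
  have t4 := t3.comp hceil
  have t5 : Tendsto (fun k : ℕ => (2 * 37 ^ 7 : ℝ) * (336 * ((k : ℝ) ^ 18 * (Real.exp (-lam)) ^ k) +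
      ((K / dl ^ 14) * (((⌈dl * (k : ℝ)⌉₊ : ℝ) ^ 14 * (1 / 2 : ℝ) ^ ⌈dl * (k : ℝ)⌉₊) *
        ((2 * A) ^ ⌈dl * (k : ℝ)⌉₊ / (⌈dl * (k : ℝ)⌉₊).factorial)) +
        7 * ((k : ℝ) ^ 15 * (0.7 : ℝ) ^ k)))) atTop (𝓝 0) := by
    have := (((t1.const_mul 336).add ((t4.const_mul (K / dl ^ 14)).add (t2.const_mul 7))).const_mul
      (2 * 37 ^ 7))
    simpa using this
  refine tendsto_of_tendsto_of_tendsto_of_le_of_le' tendsto_const_nhds t5 ?_ ?_
  · filter_upwards with k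
    unfold errF
    positivity
  · filter_upwards [eventually_ge_atTop 1] with k hk
    have hk1 : (1 : ℝ) ≤ k := by exact_mod_cast hk
    have hk0 : (0 : ℝ) ≤ k := by linarith
    set m := ⌈dl * (k : ℝ)⌉₊ with hm
    have hmk : dl * k ≤ m := Nat.le_ceil _
    have e1 : (1 + (6 * (k : ℝ)) ^ 2) ^ 7 ≤ 37 ^ 7 * k ^ 14 := by
      have : 1 + (6 * (k : ℝ)) ^ 2 ≤ 37 * k ^ 2 := by nlinarith
      calc (1 + (6 * (k : ℝ)) ^ 2) ^ 7 ≤ (37 * k ^ 2) ^ 7 :=
            pow_le_pow_left₀ (by positivity) this _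
        _ = 37 ^ 7 * k ^ 14 := by ring
    have e2 : (2 * (k : ℝ) + 1) * (3 * k + 1) * (3 * k + 1) * (6 * k + 1) ≤ 336 * k ^ 4 := by
      have a1 : 2 * (k : ℝ) + 1 ≤ 3 * k := by linarith
      have a2 : 3 * (k : ℝ) + 1 ≤ 4 * k := by linarith
      have a3 : 6 * (k : ℝ) + 1 ≤ 7 * k := by linarith
      calc (2 * (k : ℝ) + 1) * (3 * k + 1) * (3 * k + 1) * (6 * k + 1)
          ≤ (3 * k) * (4 * k) * (4 * k) * (7 * k) := by gcongr
        _ = 336 * k ^ 4 := by ring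
    have e3 : Real.exp (-(lam * k)) = (Real.exp (-lam)) ^ k := by
      rw [← Real.exp_nat_mul]; congr 1; ring
    have e4 : (k : ℝ) ^ 14 * (K * A ^ m / m.factorial) ≤ (K / dl ^ 14) *
        (((m : ℝ) ^ 14 * (1 / 2 : ℝ) ^ m) * ((2 * A) ^ m / m.factorial)) := by
      have a1 : (k : ℝ) ^ 14 ≤ (m : ℝ) ^ 14 / dl ^ 14 := by
        rw [le_div_iff₀ (by positivity), ← mul_pow]
        apply pow_le_pow_left₀ (by positivity)
        linarith
      have a2 : (K / dl ^ 14) * (((m : ℝ) ^ 14 * (1 / 2 : ℝ) ^ m) * ((2 * A) ^ m / m.factorial)) =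
          ((m : ℝ) ^ 14 / dl ^ 14) * (K * A ^ m / m.factorial) := by
        have a3 : (1 / 2 : ℝ) ^ m * (2 * A) ^ m = A ^ m := by
          rw [← mul_pow]; congr 1; ring
        calc (K / dl ^ 14) * (((m : ℝ) ^ 14 * (1 / 2 : ℝ) ^ m) * ((2 * A) ^ m / m.factorial))
            = (K / dl ^ 14) * ((m : ℝ) ^ 14 * ((1 / 2 : ℝ) ^ m * (2 * A) ^ m) / m.factorial) := by
              ring
          _ = _ := by rw [a3]; ring
      rw [a2]
      exact mul_le_mul_of_nonneg_right a1 (by positivity)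
    unfold errF
    rw [← hm, ← hA, e3]
    have e5 : (2 * (k : ℝ) + 1) * (3 * k + 1) * (3 * k + 1) * ((6 * k + 1) *
        (Real.exp (-lam)) ^ k) ≤ 336 * k ^ 4 * (Real.exp (-lam)) ^ k := by
      rw [← mul_assoc]
      apply mul_le_mul_of_nonneg_right e2 (by positivity)
    have e6 : (6 * (k : ℝ) + 1) * 0.7 ^ k ≤ 7 * k * 0.7 ^ k := by
      apply mul_le_mul_of_nonneg_right _ (by positivity)
      linarith
    calc (2 * (1 + (6 * (k : ℝ)) ^ 2) ^ 7) *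
        ((2 * (k : ℝ) + 1) * (3 * k + 1) * (3 * k + 1) * ((6 * k + 1) * (Real.exp (-lam)) ^ k) +
        (K * A ^ m / m.factorial + (6 * k + 1) * 0.7 ^ k))
        ≤ (2 * (37 ^ 7 * k ^ 14)) * (336 * k ^ 4 * (Real.exp (-lam)) ^ k +
          (K * A ^ m / m.factorial + 7 * k * 0.7 ^ k)) := by
          apply mul_le_mul
          · linarith
          · linarith
          · positivity
          · positivity
      _ = (2 * 37 ^ 7 : ℝ) * (336 * ((k : ℝ) ^ 18 * (Real.exp (-lam)) ^ k) +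
          (((k : ℝ) ^ 14 * (K * A ^ m / m.factorial)) + 7 * ((k : ℝ) ^ 15 * (0.7 : ℝ) ^ k))) := by
          ring
      _ ≤ _ := by
          apply mul_le_mul_of_nonneg_left _ (by positivity)
          linarith

/-- The main theorem of the library. -/
theorem main_limit : ∃ ε : ℝ, 0 < ε ∧ ∃ F : ℕ → ℝ, Tendsto F atTop (𝓝 0) ∧
    ∀ Q : (k : ℕ) → SimpleGraph (Fin (2 * k)) → Prop,
      (∀ k G, Cubic G → Q k G → ∃ R B : SimpleGraph (Fin (2 * k)), R ≤ G ∧ B ≤ G ∧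
        (∀ a b, G.Adj a b → R.Adj a b ∨ B.Adj a b) ∧
        (∀ M, IsMat R M → M.card ≤ ⌊(1 + ε) * k / 2⌋₊) ∧
        (∀ M, IsMat B M → M.card ≤ ⌊(1 + ε) * k / 2⌋₊)) →
      ∀ᶠ k : ℕ in atTop, (cub (2 * k) (Q k) : ℝ) ≤ cub (2 * k) (fun _ => True) * F k := by
  set lam : ℝ := Real.log (1 / 0.51) / 4000 with hlam
  have hlog : 0 < Real.log (1 / 0.51) := Real.log_pos (by norm_num)
  have hlam0 : 0 < lam := by positivity
  obtain ⟨c₀, hc₀, hc₀1, hc₀'⟩ := choose_two_pow_le lam hlam0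
  set c : ℝ := c₀ / 2 with hc
  have hc0 : 0 < c := by positivity
  have hc2 : c ≤ 0.9 := by rw [hc]; linarith
  have hc' : ∀ k s : ℕ, (s : ℝ) ≤ 2 * c * k →
      ((3 * k).choose s : ℝ) * 2 ^ s ≤ Real.exp (lam * k) := by
    intro k s hs
    apply hc₀'
    refine hs.trans ?_
    apply mul_le_mul_of_nonneg_right _ (Nat.cast_nonneg _)
    rw [hc]; linarith
  obtain ⟨K, hK⟩ := exists_nat_ge (6 / c)
  have hKpos : (0 : ℝ) < K := lt_of_lt_of_le (by positivity) hK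
  set Z : ℝ := 4 / c * (K * (3 + c / 2 * K)) with hZ
  have hZ0 : 0 < Z := by positivity
  set dl : ℝ := min (1 / (1000 * Z)) (1 / (2 * K)) with hdl
  have hdl0 : 0 < dl := lt_min (by positivity) (by positivity)
  have hdl1 : dl ≤ 1 / (1000 * Z) := min_le_left _ _
  have hdl2 : dl ≤ 1 / (2 * K) := min_le_right _ _
  refine ⟨c / 6000, by positivity, fun k => errF lam dl K k, tendsto_errF lam dl K hlam0 hdl0, ?_⟩
  intro Q hQ
  filter_upwards [eventually_ge_atTop 1000, eventually_ge_atTop ⌈1000 * Z⌉₊,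
    eventually_ge_atTop (4 * K)] with k hk1 hk2 hk3
  have hk1' : (1000 : ℝ) ≤ k := by exact_mod_cast hk1
  have hk2' : 1000 * Z ≤ k := (Nat.le_ceil _).trans (by exact_mod_cast hk2)
  have hk3' : (4 : ℝ) * K ≤ k := by exact_mod_cast hk3
  have hm0 : 0 < ⌈dl * (k : ℝ)⌉₊ := Nat.ceil_pos.2 (by positivity)
  have hm1 : (⌈dl * (k : ℝ)⌉₊ : ℝ) ≤ dl * k + 1 := (Nat.ceil_lt_add_one (by positivity)).le
  refine exc_bound lam c hlam hc0 hc2 hc' K ⌈dl * (k : ℝ)⌉₊ k ⌊(1 + c / 6000) * k / 2⌋₊ hm0 hK hk1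
    ?_ ?_ ?_ (Q k) (hQ k)
  · exact Nat.floor_le (by positivity)
  · have e1 : 4 / c * (K * (⌈dl * (k : ℝ)⌉₊ : ℝ) * (3 + c / 2 * K)) = Z * ⌈dl * (k : ℝ)⌉₊ := by
      rw [hZ]; ring
    rw [e1]
    calc Z * ⌈dl * (k : ℝ)⌉₊ ≤ Z * (dl * k + 1) := mul_le_mul_of_nonneg_left hm1 hZ0.le
      _ = Z * dl * k + Z := by ring
      _ ≤ k / 1000 + k / 1000 := by
        have e2 : Z * dl ≤ 1 / 1000 := by
          calc Z * dl ≤ Z * (1 / (1000 * Z)) := mul_le_mul_of_nonneg_left hdl1 hZ0.le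
            _ = 1 / 1000 := by field_simp
        have e3 : Z * dl * k ≤ 1 / 1000 * k := mul_le_mul_of_nonneg_right e2 (by positivity)
        linarith
      _ = k / 500 := by ring
  · have e1 : (⌈dl * (k : ℝ)⌉₊ : ℝ) * K ≤ k / 2 + K := by
      calc (⌈dl * (k : ℝ)⌉₊ : ℝ) * K ≤ (dl * k + 1) * K := mul_le_mul_of_nonneg_right hm1 hKpos.le
        _ = dl * K * k + K := by ring
        _ ≤ 1 / 2 * k + K := by
          have e2 : dl * K ≤ 1 / 2 := by
            calc dl * K ≤ 1 / (2 * K) * K := mul_le_mul_of_nonneg_right hdl2 hKpos.le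
              _ = 1 / 2 := by field_simp
          have e3 : dl * K * k ≤ 1 / 2 * k := mul_le_mul_of_nonneg_right e2 (by positivity)
          linarith
        _ = k / 2 + K := by ring
    have e4 : (2 * (⌈dl * (k : ℝ)⌉₊ * K) : ℝ) ≤ 3 * k := by linarith
    exact_mod_cast e4

end Pool.Agent.WCL
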