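import Pool.Agent.Lib_MP_76d27f_co.Words

/-!
# Many words are simple
-/

set_option autoImplicit false
set_option linter.unusedSectionVars false
set_option linter.unusedVariables false

namespace Pool.Agent.WCL

open Finset

variable {n M : ℕ}

/-- the edge with index `i` -/
def ed (w : Pos M → Fin n) (i : Fin M) : Sym2 (Fin n) := s(w (i, false), w (i, true))

/-- the index `i` is bad: a loop, or a repeated edge -/
def BadAt (w : Pos M → Fin n) (i : Fin M) : Prop :=
  w (i, false) = w (i, true) ∨ ∃ j, j ≠ i ∧ ed w j = ed w i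

instance (w : Pos M → Fin n) (i : Fin M) : Decidable (BadAt w i) := by
  unfold BadAt; infer_instance

/-- bad indices -/
def badSet (w : Pos M → Fin n) : Finset (Fin M) := univ.filter fun i => BadAt w i

theorem mem_badSet (w : Pos M → Fin n) (i : Fin M) : i ∈ badSet w ↔ BadAt w i := by
  simp [badSet]

/-- neighbouring letters -/
def nbs (w : Pos M → Fin n) (v : Fin n) : Finset (Fin n) :=
  (univ.filter fun p => w p = v).image fun p => w (p.1, !p.2)

theorem mem_nbs (w : Pos M → Fin n) (i : Fin M) (b : Bool) : w (i, !b) ∈ nbs w (w (i, b)) := by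
  rw [nbs, mem_image]
  exact ⟨(i, b), by simp, rfl⟩

theorem mem_nbs_of_ed (w : Pos M → Fin n) (l : Fin M) (x t : Fin n) (h : ed w l = s(x, t)) :
    t ∈ nbs w x := by
  rw [ed, Sym2.eq_iff] at h
  rcases h with ⟨h1, h2⟩ | ⟨h1, h2⟩
  · rw [← h1, ← h2]
    exact mem_nbs w l false
  · rw [← h1, ← h2]
    exact mem_nbs w l true

/-- One step of repair. -/
theorem repair (w : Pos M → Fin n) (hw : w ∈ Om n M) (h1 : (badSet w).Nonempty)
    (h2 : (badSet w).card + 18 < M) :
    ∃ a b : Pos M, (badSet (w ∘ Equiv.swap a b)).card < (badSet w).card := by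
  classical
  obtain ⟨i, hi⟩ := h1
  set x := w (i, false) with hx
  set y := w (i, true) with hy
  let X : Finset (Fin n) := nbs w x ∪ nbs w y
  have hyX : y ∈ X := mem_union_left _ (mem_nbs w i false)
  have hxX : x ∈ X := mem_union_right _ (mem_nbs w i true)
  have hnb : ∀ v, (nbs w v).card ≤ 3 := fun v => by
    have h3 := (mem_Om w).1 hw v
    rw [← h3]
    exact card_image_le
  have hX : X.card ≤ 6 := by
    have h3 := hnb x
    have h4 := hnb y
    exact (card_union_le (nbs w x) (nbs w y)).trans (by omega)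
  -- the indices touching X
  let J : Finset (Fin M) := (univ.filter fun p => w p ∈ X).image Prod.fst
  have hJ : J.card ≤ 18 := by
    have h3 := Om_card_pre w hw X
    have h4 : J.card ≤ (univ.filter fun p => w p ∈ X).card := card_image_le
    omega
  obtain ⟨j, hj⟩ : ∃ j, j ∉ badSet w ∪ J := by
    by_contra h
    push Not at h
    have h3 : (univ : Finset (Fin M)) ⊆ badSet w ∪ J := fun j _ => h j
    have h4 := card_le_card h3
    have h5 := card_union_le (badSet w) J
    rw [card_univ, Fintype.card_fin] at h4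
    omega
  rw [mem_union, not_or] at hj
  obtain ⟨hjb, hjJ⟩ := hj
  have hjX : ∀ b, w (j, b) ∉ X := by
    intro b hb
    apply hjJ
    rw [mem_image]
    exact ⟨(j, b), by simpa using hb, rfl⟩
  have hij : i ≠ j := by
    rintro rfl
    exact hjX false hxX
  set z := w (j, false) with hz
  set t := w (j, true) with ht
  have hzX : z ∉ X := hjX false
  have htX : t ∉ X := hjX true
  have hzt : z ≠ t := by
    intro h
    exact hjb ((mem_badSet w j).2 (Or.inl h))
  refine ⟨(i, true), (j, true), ?_⟩
  set w' := w ∘ Equiv.swap (i, true) (j, true) with hw'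
  have e1 : w' (i, false) = x := by
    rw [hw', Function.comp_apply, Equiv.swap_apply_of_ne_of_ne] <;> simp [hij]
  have e2 : w' (i, true) = t := by
    rw [hw', Function.comp_apply, Equiv.swap_apply_left]
  have e3 : w' (j, false) = z := by
    rw [hw', Function.comp_apply, Equiv.swap_apply_of_ne_of_ne] <;> simp [hij.symm]
  have e4 : w' (j, true) = y := by
    rw [hw', Function.comp_apply, Equiv.swap_apply_right]
  have e5 : ∀ l b, l ≠ i → l ≠ j → w' (l, b) = w (l, b) := by
    intro l b hli hlj
    rw [hw', Function.comp_apply, Equiv.swap_apply_of_ne_of_ne] <;>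
      simp [hli, hlj]
  have e6 : ∀ l, l ≠ i → l ≠ j → ed w' l = ed w l := by
    intro l hli hlj
    rw [ed, ed, e5 l false hli hlj, e5 l true hli hlj]
  have e7 : ed w' i = s(x, t) := by rw [ed, e1, e2]
  have e8 : ed w' j = s(y, z) := by rw [ed, e3, e4, Sym2.eq_swap]
  have hxt : ∀ l, ed w l ≠ s(x, t) := fun l h =>
    htX (mem_union_left _ (mem_nbs_of_ed w l x t h))
  have hyz : ∀ l, ed w l ≠ s(y, z) := fun l h =>
    hzX (mem_union_right _ (mem_nbs_of_ed w l y z h))
  have hne : s(x, t) ≠ s(y, z) := by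
    intro h
    rw [Sym2.eq_iff] at h
    rcases h with ⟨_, h⟩ | ⟨h, _⟩
    · exact hzt h.symm
    · exact hzX (h ▸ hxX)
  have hgi : i ∉ badSet w' := by
    rw [mem_badSet]
    rintro (h | ⟨l, hl, h⟩)
    · rw [e1, e2] at h
      exact htX (h ▸ hxX)
    · rw [e7] at h
      by_cases hlj : l = j
      · rw [hlj, e8] at h
        exact hne h.symm
      · rw [e6 l hl hlj] at h
        exact hxt l h
  have hgj : j ∉ badSet w' := by
    rw [mem_badSet]
    rintro (h | ⟨l, hl, h⟩)
    · rw [e3, e4] at h
      exact hzX (h ▸ hyX)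
    · rw [e8] at h
      by_cases hli : l = i
      · rw [hli, e7] at h
        exact hne h
      · rw [e6 l hli hl] at h
        exact hyz l h
  have hsub : badSet w' ⊆ (badSet w).erase i := by
    intro l hl
    have hli : l ≠ i := fun h => hgi (h ▸ hl)
    have hlj : l ≠ j := fun h => hgj (h ▸ hl)
    rw [mem_erase]
    refine ⟨hli, ?_⟩
    rw [mem_badSet] at hl ⊢
    rcases hl with h | ⟨l', hl', h⟩
    · left
      rw [e5 l false hli hlj, e5 l true hli hlj] at h
      exact h
    · rw [e6 l hli hlj] at h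
      right
      by_cases h3 : l' = i
      · rw [h3, e7] at h
        exact absurd h.symm (hxt l)
      · by_cases h4 : l' = j
        · rw [h4, e8] at h
          exact absurd h.symm (hyz l)
        · rw [e6 l' h3 h4] at h
          exact ⟨l', hl', h⟩
  refine lt_of_le_of_lt (card_le_card hsub) ?_
  exact card_lt_card (erase_ssubset hi)

/-- repair, counted -/
theorem count_repair (L : ℕ) (hL : L + 18 < M) :
    cnt n M (fun w => (badSet w).card ≤ L) ≤
      (1 + (2 * M) ^ 2) ^ L * cnt n M (fun w => (badSet w).card = 0) := by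
  classical
  induction L with
  | zero =>
    simp only [pow_zero, one_mul]
    exact cnt_mono fun w _ h => by omega
  | succ L ih =>
    have h1 : cnt n M (fun w => (badSet w).card ≤ L + 1) ≤
        cnt n M (fun w => (badSet w).card ≤ L) +
        cnt n M (fun w => ∃ ab ∈ (univ : Finset (Pos M × Pos M)),
          (badSet (w ∘ Equiv.swap ab.1 ab.2)).card ≤ L) := by
      have h2 : cnt n M (fun w => (badSet w).card ≤ L + 1) ≤ cnt n M (fun w =>
          (badSet w).card ≤ L ∨ ∃ ab ∈ (univ : Finset (Pos M × Pos M)),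
          (badSet (w ∘ Equiv.swap ab.1 ab.2)).card ≤ L) := by
        refine cnt_mono fun w hw h => ?_
        by_cases h3 : (badSet w).card ≤ L
        · exact Or.inl h3
        · right
          obtain ⟨a, b, hab⟩ := repair w hw (card_pos.1 (by omega)) (by omega)
          exact ⟨(a, b), mem_univ _, by simp only; omega⟩
      exact h2.trans (cnt_or_le _ _)
    have h4 : cnt n M (fun w => ∃ ab ∈ (univ : Finset (Pos M × Pos M)),
          (badSet (w ∘ Equiv.swap ab.1 ab.2)).card ≤ L) ≤
        (2 * M) ^ 2 * cnt n M (fun w => (badSet w).card ≤ L) := by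
      refine (cnt_exists_le _ _).trans ?_
      have h5 : ∀ ab ∈ (univ : Finset (Pos M × Pos M)),
          cnt n M (fun w => (badSet (w ∘ Equiv.swap ab.1 ab.2)).card ≤ L) ≤
          cnt n M (fun w => (badSet w).card ≤ L) := by
        intro ab _
        exact cnt_perm_le (Equiv.swap ab.1 ab.2) _ _ (fun w h => h)
      refine (sum_le_sum h5).trans ?_
      rw [sum_const, card_univ, Fintype.card_prod, card_Pos, smul_eq_mul]
      exact le_of_eq (by ring)
    have ih' := ih (by omega)
    calc cnt n M (fun w => (badSet w).card ≤ L + 1)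
        ≤ cnt n M (fun w => (badSet w).card ≤ L) +
          (2 * M) ^ 2 * cnt n M (fun w => (badSet w).card ≤ L) := by omega
      _ = (1 + (2 * M) ^ 2) * cnt n M (fun w => (badSet w).card ≤ L) := by ring
      _ ≤ (1 + (2 * M) ^ 2) * ((1 + (2 * M) ^ 2) ^ L *
            cnt n M (fun w => (badSet w).card = 0)) := Nat.mul_le_mul_left _ ih'
      _ = (1 + (2 * M) ^ 2) ^ (L + 1) * cnt n M (fun w => (badSet w).card = 0) := by ring


theorem cnt_loop (i : Fin M) :
    cnt n M (fun w => w (i, false) = w (i, true)) * (2 * M - 2) ≤ 2 * (Om n M).card := by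
  have h := eqs (n := n) (M := M) (κ := Unit) (fun _ => (i, false)) (fun _ => (i, true))
    (fun _ _ _ => rfl) (fun _ _ _ => rfl) (fun _ _ => by simp) univ
  simpa using h

theorem cnt_par (i j : Fin M) (hij : i ≠ j) (c : Bool) :
    cnt n M (fun w => ∀ b : Bool, w (i, b) = w (j, xor b c)) * (2 * M - 4) ^ 2 ≤
      4 * (Om n M).card := by
  have h := eqs (n := n) (M := M) (κ := Bool) (fun b => (i, b)) (fun b => (j, xor b c))
    (fun a b h => by simpa using h) (fun a b h => by simpa using h)
    (fun a b => by simp [hij]) univ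
  simpa using h

theorem cnt_badAt (i : Fin M) (hM : 28 ≤ M) :
    (cnt n M (fun w => BadAt w i) : ℝ) ≤
      (1 / (M - 1) + 2 * M / (M - 2) ^ 2) * (Om n M).card := by
  classical
  have hM' : (28 : ℝ) ≤ M := by exact_mod_cast hM
  have h1 : cnt n M (fun w => BadAt w i) ≤ cnt n M (fun w => w (i, false) = w (i, true)) +
      ∑ j ∈ univ.erase i, (cnt n M (fun w => ∀ b : Bool, w (i, b) = w (j, xor b false)) +
        cnt n M (fun w => ∀ b : Bool, w (i, b) = w (j, xor b true))) := by
    have h2 : cnt n M (fun w => BadAt w i) ≤ cnt n M (fun w => w (i, false) = w (i, true) ∨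
        ∃ j ∈ univ.erase i, ((∀ b : Bool, w (i, b) = w (j, xor b false)) ∨
          (∀ b : Bool, w (i, b) = w (j, xor b true)))) := by
      refine cnt_mono fun w _ h => ?_
      rcases h with h | ⟨j, hj, h⟩
      · exact Or.inl h
      · refine Or.inr ⟨j, mem_erase.2 ⟨hj, mem_univ _⟩, ?_⟩
        rw [ed, ed, Sym2.eq_iff] at h
        rcases h with ⟨h3, h4⟩ | ⟨h3, h4⟩
        · left
          intro b
          cases b
          · simpa using h3.symm
          · simpa using h4.symm
        · right
          intro b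
          cases b
          · simpa using h4.symm
          · simpa using h3.symm
    refine h2.trans ((cnt_or_le _ _).trans ?_)
    refine Nat.add_le_add_left ((cnt_exists_le _ _).trans ?_) _
    exact sum_le_sum fun j _ => cnt_or_le _ _
  have hN0 : (0 : ℝ) ≤ (Om n M).card := Nat.cast_nonneg _
  have h3 : (cnt n M (fun w => w (i, false) = w (i, true)) : ℝ) ≤
      1 / (M - 1) * (Om n M).card := by
    have h4 := cnt_loop (n := n) i
    have h5 : ((cnt n M (fun w => w (i, false) = w (i, true)) : ℝ)) * (2 * M - 2) ≤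
        2 * (Om n M).card := by
      have h6 : ((2 * M - 2 : ℕ) : ℝ) = 2 * M - 2 := by
        rw [Nat.cast_sub (by omega)]; push_cast; ring
      rw [← h6]
      exact_mod_cast h4
    rw [div_mul_eq_mul_div, one_mul, le_div_iff₀ (by linarith)]
    linarith
  have h7 : ∀ j ∈ univ.erase i, ∀ c, (cnt n M (fun w => ∀ b : Bool, w (i, b) = w (j, xor b c)) : ℝ) ≤
      1 / (M - 2) ^ 2 * (Om n M).card := by
    intro j hj c
    have h4 := cnt_par (n := n) i j (ne_of_mem_erase hj).symm c
    have h5 : (cnt n M (fun w => ∀ b : Bool, w (i, b) = w (j, xor b c)) : ℝ) * (2 * M - 4) ^ 2 ≤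
        4 * (Om n M).card := by
      have h6 : ((2 * M - 4 : ℕ) : ℝ) = 2 * M - 4 := by
        rw [Nat.cast_sub (by omega)]; push_cast; ring
      rw [← h6]
      exact_mod_cast h4
    have h8 : (0 : ℝ) < (M - 2) ^ 2 := by
      apply pow_pos; linarith
    rw [div_mul_eq_mul_div, one_mul, le_div_iff₀ h8]
    nlinarith
  have h9 : ∑ j ∈ univ.erase i, (((cnt n M (fun w => ∀ b : Bool, w (i, b) = w (j, xor b false)) : ℝ)) +
        (cnt n M (fun w => ∀ b : Bool, w (i, b) = w (j, xor b true)) : ℝ)) ≤
      ∑ j ∈ (univ : Finset (Fin M)).erase i, (2 * (1 / (M - 2) ^ 2 * (Om n M).card) : ℝ) := by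
    refine sum_le_sum fun j hj => ?_
    have := h7 j hj false
    have := h7 j hj true
    linarith
  have h10 : ∑ j ∈ (univ : Finset (Fin M)).erase i, (2 * (1 / (M - 2) ^ 2 * (Om n M).card) : ℝ) ≤
      M * (2 * (1 / (M - 2) ^ 2 * (Om n M).card)) := by
    rw [sum_const, nsmul_eq_mul]
    apply mul_le_mul_of_nonneg_right
    · have : ((univ : Finset (Fin M)).erase i).card ≤ M := by
        refine (card_le_card (erase_subset _ _)).trans ?_
        simp
      exact_mod_cast this
    · positivity
  have h11 : (cnt n M (fun w => BadAt w i) : ℝ) ≤ cnt n M (fun w => w (i, false) = w (i, true)) +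
      ∑ j ∈ univ.erase i, (((cnt n M (fun w => ∀ b : Bool, w (i, b) = w (j, xor b false)) : ℝ)) +
        (cnt n M (fun w => ∀ b : Bool, w (i, b) = w (j, xor b true)) : ℝ)) := by
    exact_mod_cast h1
  have h12 : (1 / (M - 1) + 2 * M / (M - 2) ^ 2) * ((Om n M).card : ℝ) =
      1 / (M - 1) * (Om n M).card + M * (2 * (1 / (M - 2) ^ 2 * (Om n M).card)) := by ring
  rw [h12]
  linarith

theorem sum_bad (hM : 28 ≤ M) :
    (∑ w ∈ Om n M, ((badSet w).card : ℝ)) ≤ 4 * (Om n M).card := by
  classical
  have hM' : (28 : ℝ) ≤ M := by exact_mod_cast hM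
  have h1 : ∑ w ∈ Om n M, (badSet w).card = ∑ i : Fin M, cnt n M (fun w => BadAt w i) := by
    have h4 := Finset.sum_card_bipartiteAbove_eq_sum_card_bipartiteBelow
      (s := Om n M) (t := (univ : Finset (Fin M))) (fun w i => BadAt w i)
    simp only [bipartiteAbove, bipartiteBelow] at h4
    calc ∑ w ∈ Om n M, (badSet w).card
        = ∑ w ∈ Om n M, (univ.filter fun i => BadAt w i).card := rfl
      _ = ∑ i : Fin M, ((Om n M).filter fun w => BadAt w i).card := h4
      _ = _ := by
        refine sum_congr rfl fun i _ => ?_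
        unfold cnt
        congr 1
        ext w
        simp only [mem_filter]
  have h2 : (∑ w ∈ Om n M, ((badSet w).card : ℝ)) =
      ∑ i : Fin M, (cnt n M (fun w => BadAt w i) : ℝ) := by exact_mod_cast h1
  rw [h2]
  refine (sum_le_sum fun i _ => cnt_badAt i hM).trans ?_
  rw [sum_const, card_univ, Fintype.card_fin, nsmul_eq_mul, ← mul_assoc]
  apply mul_le_mul_of_nonneg_right _ (Nat.cast_nonneg _)
  have h3 : (M : ℝ) * (1 / (M - 1)) ≤ 1.1 := by
    rw [mul_one_div, div_le_iff₀ (by linarith)]
    linarith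
  have h4 : (M : ℝ) * (2 * M / (M - 2) ^ 2) ≤ 2.5 := by
    have h8 : (0 : ℝ) < (M - 2) ^ 2 := by
      apply pow_pos; linarith
    rw [mul_div_assoc', div_le_iff₀ h8]
    nlinarith
  linarith

/-- Many words are simple. -/
theorem simple_many (hM : 28 ≤ M) :
    (Om n M).card ≤ 2 * (1 + (2 * M) ^ 2) ^ 7 * cnt n M (fun w => (badSet w).card = 0) := by
  classical
  have h1 := sum_bad (n := n) hM
  have h2 : 8 * (cnt n M (fun w => 8 ≤ (badSet w).card) : ℝ) ≤
      ∑ w ∈ Om n M, ((badSet w).card : ℝ) := by
    exact_mod_cast cnt_markov (n := n) (M := M) (fun w => (badSet w).card) 8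
  have h4 : (Om n M).card ≤ cnt n M (fun w => 8 ≤ (badSet w).card) +
      cnt n M (fun w => (badSet w).card ≤ 7) := by
    have h5 : (Om n M).card = cnt n M (fun w => 8 ≤ (badSet w).card ∨ (badSet w).card ≤ 7) := by
      symm
      apply cnt_eq_card
      intro w _
      omega
    rw [h5]
    exact cnt_or_le _ _
  have h6 : (Om n M).card ≤ 2 * cnt n M (fun w => (badSet w).card ≤ 7) := by
    have h7 : ((Om n M).card : ℝ) ≤ cnt n M (fun w => 8 ≤ (badSet w).card) +
      cnt n M (fun w => (badSet w).card ≤ 7) := by exact_mod_cast h4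
    have h8 : ((Om n M).card : ℝ) ≤ 2 * cnt n M (fun w => (badSet w).card ≤ 7) := by linarith
    exact_mod_cast h8
  have h9 := count_repair (n := n) (M := M) 7 (by omega)
  calc (Om n M).card ≤ 2 * cnt n M (fun w => (badSet w).card ≤ 7) := h6
    _ ≤ 2 * ((1 + (2 * M) ^ 2) ^ 7 * cnt n M (fun w => (badSet w).card = 0)) :=
      Nat.mul_le_mul_left _ h9
    _ = _ := by ring

end Pool.Agent.WCL
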