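import Mathlib

/-!
# Random words: each letter of `Fin n` occurs exactly three times in positions `Fin M × Bool`
-/

set_option autoImplicit false
set_option linter.unusedSectionVars false
set_option linter.unusedVariables false

namespace Pool.Agent.WCL

open Finset

variable {n M : ℕ}

/-- positions -/
abbrev Pos (M : ℕ) := Fin M × Bool

/-- words in which each letter occurs exactly three times -/
def Om (n M : ℕ) : Finset (Pos M → Fin n) :=
  univ.filter fun w => ∀ v, (univ.filter fun p => w p = v).card = 3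

theorem mem_Om (w : Pos M → Fin n) :
    w ∈ Om n M ↔ ∀ v, (univ.filter fun p => w p = v).card = 3 := by simp [Om]

theorem Om_perm (σ : Equiv.Perm (Pos M)) (w : Pos M → Fin n) (hw : w ∈ Om n M) :
    w ∘ σ ∈ Om n M := by
  rw [mem_Om] at hw ⊢
  intro v
  rw [← hw v]
  refine card_bij (fun p _ => σ p) ?_ ?_ ?_
  · intro p hp
    simpa using hp
  · intro a _ b _ hab
    exact σ.injective hab
  · intro b hb
    refine ⟨σ.symm b, ?_, by simp⟩
    simpa using hb

theorem Om_perm_iff (σ : Equiv.Perm (Pos M)) (w : Pos M → Fin n) :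
    w ∘ σ ∈ Om n M ↔ w ∈ Om n M := by
  refine ⟨fun h => ?_, Om_perm σ w⟩
  have := Om_perm σ.symm _ h
  have h2 : (w ∘ σ) ∘ σ.symm = w := by ext p; simp
  rwa [h2] at this

theorem card_Pos : Fintype.card (Pos M) = 2 * M := by
  simp [Pos, Fintype.card_prod]; ring

theorem Om_card_pre (w : Pos M → Fin n) (hw : w ∈ Om n M) (U : Finset (Fin n)) :
    (univ.filter fun p => w p ∈ U).card = 3 * U.card := by
  rw [mem_Om] at hw
  have h1 : (univ.filter fun p => w p ∈ U) = U.biUnion fun v => univ.filter fun p => w p = v := by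
    ext p; simp
  rw [h1, card_biUnion]
  · rw [mul_comm, ← smul_eq_mul, ← sum_const]
    exact sum_congr rfl fun v _ => hw v
  · intro a _ b _ hab
    rw [Function.onFun, Finset.disjoint_left]
    intro p hp hq
    simp only [mem_filter, mem_univ, true_and] at hp hq
    exact hab (hp.symm.trans hq)

open Classical in
/-- number of words with property `E` -/
noncomputable def cnt (n M : ℕ) (E : (Pos M → Fin n) → Prop) : ℕ := ((Om n M).filter E).card

theorem cnt_le (E : (Pos M → Fin n) → Prop) : cnt n M E ≤ (Om n M).card := by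
  classical
  unfold cnt
  exact card_le_card (filter_subset _ _)

theorem cnt_congr {E F : (Pos M → Fin n) → Prop} (h : ∀ w ∈ Om n M, E w ↔ F w) :
    cnt n M E = cnt n M F := by
  classical
  unfold cnt
  congr 1
  ext w
  simp only [mem_filter]
  exact ⟨fun h1 => ⟨h1.1, (h w h1.1).1 h1.2⟩, fun h1 => ⟨h1.1, (h w h1.1).2 h1.2⟩⟩

theorem cnt_mono {E F : (Pos M → Fin n) → Prop} (h : ∀ w ∈ Om n M, E w → F w) :
    cnt n M E ≤ cnt n M F := by
  classical
  unfold cnt
  apply card_le_card
  intro w
  simp only [mem_filter]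
  exact fun h1 => ⟨h1.1, h w h1.1 h1.2⟩

theorem cnt_or_le (E F : (Pos M → Fin n) → Prop) :
    cnt n M (fun w => E w ∨ F w) ≤ cnt n M E + cnt n M F := by
  classical
  unfold cnt
  refine le_trans (card_le_card ?_) (card_union_le _ _)
  intro w hw
  simp only [mem_filter, mem_union] at hw ⊢
  tauto

theorem cnt_eq_card (E : (Pos M → Fin n) → Prop) (h : ∀ w ∈ Om n M, E w) :
    cnt n M E = (Om n M).card := by
  classical
  unfold cnt
  congr 1
  ext w
  simp only [mem_filter]
  exact ⟨fun h1 => h1.1, fun h1 => ⟨h1, h w h1⟩⟩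

/-- weighted count -/
theorem mul_cnt_le (E : (Pos M → Fin n) → Prop) (f : (Pos M → Fin n) → ℕ) (c : ℕ)
    (h : ∀ w ∈ Om n M, E w → c ≤ f w) : c * cnt n M E ≤ ∑ w ∈ Om n M, f w := by
  classical
  unfold cnt
  rw [mul_comm, ← smul_eq_mul, ← sum_const]
  refine (sum_le_sum (g := f) ?_).trans (sum_le_sum_of_subset (filter_subset _ _))
  intro w hw
  rw [mem_filter] at hw
  exact h w hw.1 hw.2

/-- Markov -/
theorem cnt_markov (f : (Pos M → Fin n) → ℕ) (c : ℕ) :
    c * cnt n M (fun w => c ≤ f w) ≤ ∑ w ∈ Om n M, f w :=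
  mul_cnt_le _ _ _ (fun _ _ h => h)

/-- union bound -/
theorem cnt_exists_le {κ : Type} (s : Finset κ) (E : κ → (Pos M → Fin n) → Prop) :
    cnt n M (fun w => ∃ i ∈ s, E i w) ≤ ∑ i ∈ s, cnt n M (E i) := by
  classical
  have h1 : ((Om n M).filter fun w => ∃ i ∈ s, E i w) ⊆
      s.biUnion fun i => (Om n M).filter (E i) := by
    intro w hw
    simp only [mem_filter, mem_biUnion] at hw ⊢
    obtain ⟨h1, i, hi, h2⟩ := hw
    exact ⟨i, hi, h1, h2⟩
  have h2 := (card_le_card h1).trans card_biUnion_le
  unfold cnt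
  refine le_trans (le_of_eq ?_) h2
  congr 1
  ext w
  simp only [mem_filter]

/-- symmetry -/
theorem cnt_perm_le (σ : Equiv.Perm (Pos M)) (E F : (Pos M → Fin n) → Prop)
    (h : ∀ w, E w → F (w ∘ σ)) : cnt n M E ≤ cnt n M F := by
  classical
  unfold cnt
  refine card_le_card_of_injOn (fun w => w ∘ σ) ?_ ?_
  · intro w hw
    simp only [coe_filter, Set.mem_ofPred_eq] at hw ⊢
    exact ⟨Om_perm σ w hw.1, h w hw.2⟩
  · intro w _ w' _ hww
    ext p
    have := congrFun hww (σ.symm p)
    simp only [Function.comp_apply, Equiv.apply_symm_apply] at this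
    rw [this]

/-- one more equality -/
theorem eq_step (E : (Pos M → Fin n) → Prop) (D : Finset (Pos M))
    (hE : ∀ w a b, a ∉ D → b ∉ D → E w → E (w ∘ Equiv.swap a b)) (p q : Pos M) (hp : p ∈ D)
    (hq : q ∉ D) :
    cnt n M (fun w => E w ∧ w p = w q) * (2 * M - D.card) ≤ 2 * cnt n M E := by
  classical
  have hcard : (Dᶜ : Finset (Pos M)).card = 2 * M - D.card := by
    rw [card_compl, card_Pos]
  have h1 : ∀ q' ∈ (Dᶜ : Finset (Pos M)),
      cnt n M (fun w => E w ∧ w p = w q) ≤ cnt n M (fun w => E w ∧ w p = w q') := by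
    intro q' hq'
    rw [mem_compl] at hq'
    have hpq : p ≠ q := fun h => hq (h ▸ hp)
    have hpq' : p ≠ q' := fun h => hq' (h ▸ hp)
    refine cnt_perm_le (Equiv.swap q q') _ _ ?_
    intro w hw
    refine ⟨hE w q q' hq hq' hw.1, ?_⟩
    simp only [Function.comp_apply, Equiv.swap_apply_right]
    rw [Equiv.swap_apply_of_ne_of_ne hpq hpq']
    exact hw.2
  have h2 : cnt n M (fun w => E w ∧ w p = w q) * (2 * M - D.card) ≤
      ∑ q' ∈ (Dᶜ : Finset (Pos M)), cnt n M (fun w => E w ∧ w p = w q') := by
    rw [← hcard, mul_comm, ← smul_eq_mul, ← sum_const]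
    exact sum_le_sum h1
  refine h2.trans ?_
  have h3 : ∑ q' ∈ (Dᶜ : Finset (Pos M)), cnt n M (fun w => E w ∧ w p = w q') =
      ∑ w ∈ (Om n M).filter E, ((Dᶜ : Finset (Pos M)).filter fun q' => w p = w q').card := by
    have h4 := Finset.sum_card_bipartiteAbove_eq_sum_card_bipartiteBelow
      (s := (Dᶜ : Finset (Pos M))) (t := (Om n M).filter E) (fun q' w => w p = w q')
    simp only [bipartiteAbove, bipartiteBelow] at h4
    rw [← h4]
    refine sum_congr rfl fun q' _ => ?_
    unfold cnt
    rw [filter_filter]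
    congr 1
    ext w
    simp only [mem_filter]
  rw [h3]
  have h7 : ∑ w ∈ (Om n M).filter E, ((Dᶜ : Finset (Pos M)).filter fun q' => w p = w q').card ≤
      ∑ w ∈ (Om n M).filter E, 2 := by
    refine sum_le_sum fun w hw => ?_
    rw [mem_filter] at hw
    have h4 := (mem_Om w).1 hw.1 (w p)
    have h5 : ((Dᶜ : Finset (Pos M)).filter fun q' => w p = w q') ⊆
        (univ.filter fun p' => w p' = w p).erase p := by
      intro q' hq'
      rw [mem_filter, mem_compl] at hq'
      rw [mem_erase, mem_filter]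
      exact ⟨fun h => hq'.1 (h ▸ hp), mem_univ _, hq'.2.symm⟩
    have h6 := card_le_card h5
    rw [card_erase_of_mem (by simp), h4] at h6
    exact h6
  refine h7.trans ?_
  rw [sum_const, smul_eq_mul, mul_comm]
  exact le_refl _

/-- several equalities -/
theorem eqs {κ : Type} (p q : κ → Pos M) (hp : Function.Injective p) (hq : Function.Injective q)
    (hpq : ∀ i j, p i ≠ q j) (I : Finset κ) :
    cnt n M (fun w => ∀ i ∈ I, w (p i) = w (q i)) * (2 * M - 2 * I.card) ^ I.card ≤
      2 ^ I.card * (Om n M).card := by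
  classical
  induction I using Finset.induction_on with
  | empty =>
    simp only [card_empty, pow_zero, mul_one, one_mul]
    exact cnt_le _
  | insert i I hi ih =>
    have hstep := eq_step (n := n) (fun w => ∀ i ∈ I, w (p i) = w (q i))
      (insert (p i) (I.image p ∪ I.image q))
      (by
        intro w a b ha hb hw j hj
        simp only [mem_insert, mem_union, mem_image, not_or, not_exists, not_and] at ha hb
        simp only [Function.comp_apply]
        rw [Equiv.swap_apply_of_ne_of_ne (fun h => ha.2.1 j hj h) (fun h => hb.2.1 j hj h),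
          Equiv.swap_apply_of_ne_of_ne (fun h => ha.2.2 j hj h) (fun h => hb.2.2 j hj h)]
        exact hw j hj)
      (p i) (q i) (mem_insert_self _ _)
      (by
        simp only [mem_insert, mem_union, mem_image, not_or, not_exists, not_and]
        refine ⟨(hpq i i).symm, fun j _ => hpq j i, fun j hj h => hi ?_⟩
        rw [← hq h]; exact hj)
    have hD : (insert (p i) (I.image p ∪ I.image q)).card ≤ 2 * I.card + 1 := by
      refine (card_insert_le _ _).trans ?_
      have h1 := card_union_le (I.image p) (I.image q)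
      have h2 : (I.image p).card ≤ I.card := card_image_le
      have h3 : (I.image q).card ≤ I.card := card_image_le
      omega
    have hset : cnt n M (fun w => ∀ j ∈ insert i I, w (p j) = w (q j)) =
        cnt n M (fun w => (∀ i ∈ I, w (p i) = w (q i)) ∧ w (p i) = w (q i)) := by
      refine cnt_congr fun w _ => ?_
      simp only [mem_insert, forall_eq_or_imp]
      tauto
    rw [hset, card_insert_of_notMem hi]
    set X := cnt n M (fun w => (∀ i ∈ I, w (p i) = w (q i)) ∧ w (p i) = w (q i))
    set Y := cnt n M (fun w => ∀ i ∈ I, w (p i) = w (q i))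
    have h4 : 2 * M - 2 * (I.card + 1) ≤ 2 * M - (insert (p i) (I.image p ∪ I.image q)).card := by
      omega
    have h5 : (2 * M - 2 * (I.card + 1)) ^ I.card ≤ (2 * M - 2 * I.card) ^ I.card :=
      Nat.pow_le_pow_left (by omega) _
    calc X * (2 * M - 2 * (I.card + 1)) ^ (I.card + 1)
        = X * (2 * M - 2 * (I.card + 1)) * (2 * M - 2 * (I.card + 1)) ^ I.card := by ring
      _ ≤ X * (2 * M - (insert (p i) (I.image p ∪ I.image q)).card) *
          (2 * M - 2 * I.card) ^ I.card :=
        Nat.mul_le_mul (Nat.mul_le_mul_left _ h4) h5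
      _ ≤ 2 * Y * (2 * M - 2 * I.card) ^ I.card := Nat.mul_le_mul_right _ hstep
      _ = 2 * (Y * (2 * M - 2 * I.card) ^ I.card) := by ring
      _ ≤ 2 * (2 ^ I.card * (Om n M).card) := Nat.mul_le_mul_left _ ih
      _ = 2 ^ (I.card + 1) * (Om n M).card := by ring

end Pool.Agent.WCL
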